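import Mathlib

/-!
# Coefficient fields of valuation rings of algebraically closed fields (helper2)
-/

open Polynomial

namespace Pool.Agent.KRFN

namespace Coef

variable {K : Type*} [Field K]

/-- the subfields contained in `A` which contain `k` -/
theorem exists_max (A : ValuationSubring K) (k : Subfield K) (hk : ∀ x ∈ k, x ∈ A) :
    ∃ k₀ : Subfield K, k ≤ k₀ ∧ (∀ x ∈ k₀, x ∈ A) ∧
      ∀ k₁ : Subfield K, (∀ x ∈ k₁, x ∈ A) → k₀ ≤ k₁ → k₁ ≤ k₀ := by
  obtain ⟨k₀, h1, h2⟩ := zorn_le_nonempty₀ {k' : Subfield K | ∀ x ∈ k', x ∈ A} (by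
    intro c hc hch y hy
    refine ⟨sSup c, ?_, fun z hz => le_sSup hz⟩
    intro x hx
    rw [Subfield.mem_sSup_of_directedOn ⟨y, hy⟩ hch.directedOn] at hx
    obtain ⟨s, hs, hxs⟩ := hx
    exact hc hs x hxs) k hk
  exact ⟨k₀, h1, h2.1, fun k₁ hk₁ hle => h2.2 hk₁ hle⟩

theorem prod_val {A : ValuationSubring K} {s : Multiset K}
    (h : A.valuation s.prod < 1) (hs : ∀ x ∈ s, x ∈ A) : ∃ x ∈ s, A.valuation x < 1 := by
  induction s using Multiset.induction_on with
  | empty =>
    rw [Multiset.prod_zero, map_one] at h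
    exact absurd h (lt_irrefl _)
  | cons a s ih =>
    rw [Multiset.prod_cons, map_mul] at h
    by_cases ha : A.valuation a < 1
    · exact ⟨a, Multiset.mem_cons_self a s, ha⟩
    · have ha1 : A.valuation a = 1 :=
        le_antisymm ((A.valuation_le_one_iff a).2 (hs a (Multiset.mem_cons_self a s)))
          (not_lt.1 ha)
      rw [ha1, one_mul] at h
      obtain ⟨x, hx, hx'⟩ := ih h fun x hx => hs x (Multiset.mem_cons_of_mem hx)
      exact ⟨x, Multiset.mem_cons_of_mem hx, hx'⟩

/-- **coefficient fields**: a maximal subfield of a valuation ring of an algebraically closed field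
is mapped onto the residue field -/
theorem exists_coefficient_field [IsAlgClosed K] (A : ValuationSubring K) (k : Subfield K)
    (hk : ∀ x ∈ k, x ∈ A) : ∃ k₀ : Subfield K, k ≤ k₀ ∧ (∀ x ∈ k₀, x ∈ A) ∧
      ∀ a ∈ A, ∃ b ∈ k₀, A.valuation (a - b) < 1 := by
  obtain ⟨k₀, hk₀, hA, hmax⟩ := exists_max A k hk
  refine ⟨k₀, hk₀, hA, fun a ha => ?_⟩
  by_contra hcon
  push Not at hcon
  -- nonzero elements of `k₀` have valuation one
  have hone : ∀ b ∈ k₀, b ≠ 0 → A.valuation b = 1 := by
    intro b hb hb0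
    refine le_antisymm ((A.valuation_le_one_iff b).2 (hA b hb)) ?_
    have h1 := (A.valuation_le_one_iff b⁻¹).2 (hA _ (k₀.inv_mem hb))
    rw [map_inv₀] at h1
    have h2 : A.valuation b ≠ 0 := (Valuation.ne_zero_iff _).2 hb0
    exact (inv_le_one₀ (zero_lt_iff.2 h2)).1 h1
  have hev : ∀ P : k₀[X], aeval a P ∈ A := by
    intro P
    rw [aeval_eq_sum_range]
    refine sum_mem fun i _ => ?_
    rw [Algebra.smul_def]
    exact A.mul_mem _ _ (hA _ (P.coeff i).2) (pow_mem ha i)
  by_cases hP : ∃ P : k₀[X], P ≠ 0 ∧ A.valuation (aeval a P) < 1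
  · -- the algebraic case
    obtain ⟨P, hP0, hPa⟩ := hP
    -- `k₀` is algebraically closed in `K`
    have halg : ∀ α : K, IsIntegral k₀ α → α ∈ k₀ := by
      intro α hα
      have h1 := hmax (algebraicClosure k₀ K).toSubfield (by
        intro x hx
        have hx' : IsAlgebraic k₀ x := mem_algebraicClosure_iff.1 hx
        have hx2 : IsIntegral k₀ x := hx'.isIntegral
        obtain ⟨p, hpm, hp⟩ := hx2
        have : IsIntegral A x := by
          refine ⟨p.map (Subring.inclusion (S := k₀.toSubring) (T := A.toSubring)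
            (fun y hy => hA y hy)), hpm.map _, ?_⟩
          rw [eval₂_map]
          exact hp
        obtain ⟨y, hy⟩ := IsIntegrallyClosed.isIntegral_iff.1 this
        rw [← hy]
        exact y.2) (fun x hx => (algebraicClosure k₀ K).algebraMap_mem ⟨x, hx⟩)
      exact h1 (mem_algebraicClosure_iff.2 hα.isAlgebraic)
    set Q := P.map (algebraMap k₀ K) with hQ
    have hQ0 : Q ≠ 0 := (Polynomial.map_ne_zero_iff (algebraMap k₀ K).injective).2 hP0
    have hsplit := IsAlgClosed.splits Q
    have hroots : ∀ α ∈ Q.roots, α ∈ k₀ := by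
      intro α hα
      apply halg
      have h1 : aeval α P = 0 := by
        rw [← eval_map_algebraMap]
        exact (mem_roots hQ0).1 hα
      exact (isAlgebraic_iff_isIntegral.1 ⟨P, hP0, h1⟩)
    have hfac : aeval a P = Q.leadingCoeff * (Q.roots.map fun α => a - α).prod := by
      rw [← eval_map_algebraMap, ← hQ]
      conv_lhs => rw [hsplit.eq_prod_roots]
      rw [eval_mul, eval_C, eval_multiset_prod, Multiset.map_map]
      simp
    rw [hfac, map_mul] at hPa
    have hlc : A.valuation Q.leadingCoeff = 1 := by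
      apply hone
      · rw [hQ, leadingCoeff_map]
        exact (P.leadingCoeff).2
      · exact leadingCoeff_ne_zero.2 hQ0
    rw [hlc, one_mul] at hPa
    obtain ⟨x, hx, hx'⟩ := prod_val hPa (by
      intro x hx
      obtain ⟨α, hα, rfl⟩ := Multiset.mem_map.1 hx
      exact sub_mem ha (hA α (hroots α hα)))
    obtain ⟨α, hα, rfl⟩ := Multiset.mem_map.1 hx
    exact absurd hx' (not_lt.2 (hcon α (hroots α hα)))
  · -- the transcendental case
    push Not at hP
    have hunit : ∀ P : k₀[X], P ≠ 0 → A.valuation (aeval a P) = 1 := fun P hP0 =>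
      le_antisymm ((A.valuation_le_one_iff _).2 (hev P)) (hP P hP0)
    have h1 := hmax (IntermediateField.adjoin k₀ {a}).toSubfield (by
      intro x hx
      obtain ⟨r, s, rfl⟩ := (IntermediateField.mem_adjoin_simple_iff k₀ x).1 hx
      by_cases hs : s = 0
      · rw [hs, map_zero, div_zero]
        exact A.zero_mem
      · rw [← A.valuation_le_one_iff, map_div₀, hunit s hs, div_one]
        exact (A.valuation_le_one_iff _).2 (hev r))
      (fun x hx => (IntermediateField.adjoin k₀ {a}).algebraMap_mem ⟨x, hx⟩)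
    have h2 : a ∈ k₀ := h1 (IntermediateField.mem_adjoin_simple_self k₀ a)
    have := hcon a h2
    rw [sub_self, map_zero] at this
    exact absurd this (not_le.2 zero_lt_one)

end Coef

end Pool.Agent.KRFN
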