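import Pool.Agent.Work.MP_a2bf38_gt.X.Hadamard

/-!
# Continuous functions on `ℂ` with the sub-mean value property and logarithmic growth

If `G` is continuous, satisfies the sub-mean value inequality on small circles off a locally finite
set, and `G ≤ B + K log (1 + |s|^2)`, then off a disc of radius `r` about `a` it is at most its
maximum on the circle plus `2 K log (|s - a| / r)`.
-/

open scoped ContDiff Topology
open Set MeasureTheory Filter Pool.Agent.KRFF Pool.Agent.KRFX

namespace Pool.Agent.KRFN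

/-- the sub-mean value inequality on small circles about `s` -/
def SubAt (G : ℂ → ℝ) (s : ℂ) : Prop :=
  ∀ᶠ r in 𝓝[>] (0 : ℝ), G s ≤ cavg (fun ξ => G (s + ξ)) r

/-- the sub-mean value inequality up to `o(r^2)` -/
def SubAs (G : ℂ → ℝ) (s : ℂ) : Prop :=
  ∀ ε > 0, ∀ᶠ r in 𝓝[>] (0 : ℝ), G s ≤ cavg (fun ξ => G (s + ξ)) r + ε * r ^ 2

theorem SubAt.subAs {G : ℂ → ℝ} {s : ℂ} (h : SubAt G s) : SubAs G s := by
  intro ε hε
  filter_upwards [h] with r hr
  have : 0 ≤ ε * r ^ 2 := by positivity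
  linarith

namespace Hada

theorem circle_int {G : ℂ → ℝ} {s : ℂ} {r : ℝ} (hr : 0 ≤ r)
    (hG : ∀ z, ‖z - s‖ = r → ContinuousAt G z) :
    CircleIntegrable (fun ξ => G (s + ξ)) 0 r := by
  refine ContinuousOn.circleIntegrable hr fun z hz => ?_
  have h1 : ‖z‖ = r := by simpa using hz
  have h2 : ContinuousAt (fun ξ => G (s + ξ)) z := by
    have h3 : ContinuousAt G (s + z) := hG (s + z) (by simpa using h1)
    exact ContinuousAt.comp (f := fun ξ => s + ξ) h3 (by fun_prop)
  exact h2.continuousWithinAt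

theorem cavg_add {f g : ℂ → ℝ} {r : ℝ} (hf : CircleIntegrable f 0 r)
    (hg : CircleIntegrable g 0 r) : cavg (fun ξ => f ξ + g ξ) r = cavg f r + cavg g r := by
  rw [Loc.cavg_eq, Loc.cavg_eq, Loc.cavg_eq]
  exact Real.circleAverage_fun_add hf hg

theorem cavg_const_mul {f : ℂ → ℝ} {r : ℝ} (c : ℝ) :
    cavg (fun ξ => c * f ξ) r = c * cavg f r := by
  rw [Loc.cavg_eq, Loc.cavg_eq]
  exact Real.circleAverage_fun_smul (a := c) (f := f) (c := 0) (R := r)

theorem cavg_const (c r : ℝ) : cavg (fun _ => c) r = c := by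
  rw [Loc.cavg_eq]
  exact Real.circleAverage_const c 0 r

theorem cavg_sum {ι : Type*} (T : Finset ι) {f : ι → ℂ → ℝ} {r : ℝ}
    (hf : ∀ i ∈ T, CircleIntegrable (f i) 0 r) :
    cavg (fun ξ => ∑ i ∈ T, f i ξ) r = ∑ i ∈ T, cavg (f i) r := by
  rw [Loc.cavg_eq]
  simp only [Loc.cavg_eq]
  exact Real.circleAverage_fun_sum hf

theorem cavg_mono {f g : ℂ → ℝ} {r : ℝ} (hr : 0 ≤ r) (hf : CircleIntegrable f 0 r)
    (hg : CircleIntegrable g 0 r) (h : ∀ ξ, ‖ξ‖ = r → f ξ ≤ g ξ) : cavg f r ≤ cavg g r := by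
  rw [Loc.cavg_eq, Loc.cavg_eq]
  exact Real.circleAverage_mono hf hg fun x hx => h x (by simpa [abs_of_nonneg hr] using hx)

theorem contAt_log {z q : ℂ} (h : z ≠ q) : ContinuousAt (fun w : ℂ => Real.log ‖w - q‖) z :=
  ContinuousAt.log (by fun_prop) (by simpa [sub_eq_zero] using h)

theorem cavg_log {s q : ℂ} {r : ℝ} (hr : 0 < r) (hrs : r < ‖s - q‖) :
    cavg (fun ξ => Real.log ‖s + ξ - q‖) r = Real.log ‖s - q‖ := by
  rw [← Loc.cavg_log_norm hr hrs.le]
  congr 1
  funext ξ
  congr 2
  ring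

/-- the average of `|z - a|^2` -/
theorem cavg_sq (s a : ℂ) (r : ℝ) :
    cavg (fun ξ => ‖s + ξ - a‖ ^ 2) r = ‖s - a‖ ^ 2 + r ^ 2 := by
  have h1 : ∀ ξ : ℂ, ‖ξ‖ = |r| → ‖s + ξ - a‖ ^ 2 =
      ‖s - a‖ ^ 2 + r ^ 2 +
        ((Polynomial.C (2 * (starRingEnd ℂ) (s - a)) * Polynomial.X : Polynomial ℂ).eval
          (0 + ξ)).re := by
    intro ξ hξ
    have h2 : s + ξ - a = (s - a) + ξ := by ring
    rw [h2, ← Complex.normSq_eq_norm_sq, ← Complex.normSq_eq_norm_sq, Complex.normSq_add,
      Complex.normSq_eq_norm_sq ξ, hξ, sq_abs]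
    simp only [Polynomial.eval_mul, Polynomial.eval_C, Polynomial.eval_X, zero_add]
    have h3 : (2 * (starRingEnd ℂ) (s - a) * ξ).re = 2 * ((s - a) * (starRingEnd ℂ) ξ).re := by
      simp only [Complex.mul_re, Complex.conj_re, Complex.conj_im, Complex.re_ofNat,
        Complex.im_ofNat, Complex.mul_im]
      ring
    rw [h3]
  rw [Loc.cavg_eq, Real.circleAverage_congr_sphere (f₂ := fun ξ => ‖s - a‖ ^ 2 + r ^ 2 +
        ((Polynomial.C (2 * (starRingEnd ℂ) (s - a)) * Polynomial.X : Polynomial ℂ).eval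
          (0 + ξ)).re) (fun ξ hξ => h1 ξ (by simpa using hξ)),
    Real.circleAverage_fun_add (circleIntegrable_const _ 0 r)
      (ContinuousOn.circleIntegrable' (by fun_prop)), Real.circleAverage_const, ← Loc.cavg_eq,
    Loc.cavg_poly]
  simp

/-- adding `κ |z - a|^2` -/
theorem subAt_of_subAs {G : ℂ → ℝ} {s : ℂ} (hG : ∀ᶠ z in 𝓝 s, ContinuousAt G z) (a : ℂ) {κ : ℝ}
    (hκ : 0 < κ) (h : SubAs G s) : SubAt (fun z => G z + κ * ‖z - a‖ ^ 2) s := by
  obtain ⟨ε, hε, hε2⟩ := Metric.eventually_nhds_iff.1 hG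
  have ev : ∀ᶠ r in 𝓝[>] (0 : ℝ), r < ε :=
    (eventually_lt_nhds hε).filter_mono nhdsWithin_le_nhds
  filter_upwards [h κ hκ, ev, self_mem_nhdsWithin] with r hr hr2 hr0
  have hr0' : 0 < r := hr0
  have i1 : CircleIntegrable (fun ξ => G (s + ξ)) 0 r :=
    circle_int hr0'.le fun z hz => hε2 (by rw [dist_eq_norm, hz]; exact hr2)
  have i2 : CircleIntegrable (fun ξ => κ * ‖s + ξ - a‖ ^ 2) 0 r :=
    ContinuousOn.circleIntegrable hr0'.le (by fun_prop)
  rw [cavg_add i1 i2, cavg_const_mul, cavg_sq]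
  linarith

/-- `SubAt` for the sum with a combination of logarithms -/
theorem subAt_log {G : ℂ → ℝ} (hG : Continuous G) {s a : ℂ} (T : Finset ℂ) (c c' : ℝ)
    (h : SubAt G s) (ha : s ≠ a) (hT : ∀ q ∈ T, s ≠ q) (C : ℝ) :
    SubAt (fun z => G z + (c * Real.log ‖z - a‖ + c' * ∑ q ∈ T, (Real.log ‖z - q‖ - C))) s := by
  have h1 : ∀ᶠ r in 𝓝[>] (0 : ℝ), r < ‖s - a‖ :=
    (eventually_lt_nhds (norm_pos_iff.2 (sub_ne_zero.2 ha))).filter_mono nhdsWithin_le_nhds
  have h2 : ∀ᶠ r in 𝓝[>] (0 : ℝ), ∀ q ∈ T, r < ‖s - q‖ := by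
    rw [Filter.eventually_all_finset]
    intro q hq
    exact (eventually_lt_nhds (norm_pos_iff.2 (sub_ne_zero.2 (hT q hq)))).filter_mono
      nhdsWithin_le_nhds
  filter_upwards [h, h1, h2, self_mem_nhdsWithin] with r hr hra hrT hr0
  have hr0' : 0 < r := hr0
  have hne : ∀ q : ℂ, r < ‖s - q‖ → ∀ z, ‖z - s‖ = r → z ≠ q := by
    rintro q hq z hz rfl
    rw [norm_sub_rev] at hz
    linarith
  have i1 : CircleIntegrable (fun ξ => G (s + ξ)) 0 r :=
    circle_int hr0'.le fun z _ => hG.continuousAt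
  have i2 : ∀ q : ℂ, r < ‖s - q‖ → CircleIntegrable (fun ξ => Real.log ‖s + ξ - q‖) 0 r :=
    fun q hq => circle_int (G := fun z => Real.log ‖z - q‖) hr0'.le fun z hz =>
      contAt_log (hne q hq z hz)
  have i3 : CircleIntegrable (fun ξ => c * Real.log ‖s + ξ - a‖) 0 r :=
    (i2 a hra).const_fun_smul (a := c)
  have i4 : ∀ q ∈ T, CircleIntegrable (fun ξ => Real.log ‖s + ξ - q‖ - C) 0 r := fun q hq =>
    (i2 q (hrT q hq)).sub (circleIntegrable_const C 0 r)
  have i5 : CircleIntegrable (fun ξ => ∑ q ∈ T, (Real.log ‖s + ξ - q‖ - C)) 0 r := by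
    have := CircleIntegrable.sum T i4
    convert this using 1
    funext ξ
    simp
  have i6 : CircleIntegrable (fun ξ => c' * ∑ q ∈ T, (Real.log ‖s + ξ - q‖ - C)) 0 r :=
    i5.const_fun_smul (a := c')
  have i7 : CircleIntegrable (fun ξ => c * Real.log ‖s + ξ - a‖ +
      c' * ∑ q ∈ T, (Real.log ‖s + ξ - q‖ - C)) 0 r := i3.add i6
  rw [cavg_add i1 i7, cavg_add i3 i6, cavg_const_mul, cavg_const_mul, cavg_log hr0' hra,
    cavg_sum T i4]
  have h3 : ∀ q ∈ T, cavg (fun ξ => Real.log ‖s + ξ - q‖ - C) r = Real.log ‖s - q‖ - C := by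
    intro q hq
    have h4 := cavg_add (i2 q (hrT q hq)) (circleIntegrable_const (-C) 0 r)
    rw [cavg_const, cavg_log hr0' (hrT q hq)] at h4
    simpa [sub_eq_add_neg] using h4
  rw [Finset.sum_congr rfl h3]
  linarith

end Hada

open Hada

/-- growth off a disc -/
theorem growth {G : ℂ → ℝ} (hG : Continuous G) {S : Set ℂ}
    (hS : ∀ R : ℝ, (S ∩ Metric.closedBall 0 R).Finite)
    (h : ∀ s, s ∉ S → SubAs G s) {K B : ℝ} (hK : 0 ≤ K)
    (hB : ∀ s, G s ≤ B + K * Real.log (1 + ‖s‖ ^ 2)) {a : ℂ} {r A : ℝ} (hr : 0 < r)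
    (hA : ∀ s, ‖s - a‖ = r → G s ≤ A) {s : ℂ} (hs : r ≤ ‖s - a‖) :
    G s ≤ A + 2 * K * Real.log (‖s - a‖ / r) := by
  -- step 1: `s ∉ S`, with `2 K + η`
  have key : ∀ η > 0, ∀ s, s ∉ S → r ≤ ‖s - a‖ →
      G s ≤ A + (2 * K + η) * Real.log (‖s - a‖ / r) := by
    intro η hη s hsS hs
    -- the outer radius
    have e1 : ∀ᶠ R in atTop, B + K * Real.log 5 - A + (2 * K + η) * Real.log r ≤
        η * Real.log R :=
      (Real.tendsto_log_atTop.const_mul_atTop hη).eventually_ge_atTop _
    obtain ⟨R, hR1, hR2, hR3, hR4⟩ := (e1.and ((eventually_gt_atTop ‖s - a‖).and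
      ((eventually_ge_atTop 1).and (eventually_ge_atTop ‖a‖)))).exists
    have hR0 : 0 < R := by linarith
    have hrR : r < R := hs.trans_lt hR2
    have hout : ∀ z : ℂ, ‖z - a‖ = R → G z ≤ A + (2 * K + η) * (Real.log R - Real.log r) := by
      intro z hz
      have h1 : ‖z‖ ≤ 2 * R := by
        have : ‖z‖ ≤ ‖z - a‖ + ‖a‖ := by
          have := norm_add_le (z - a) a
          simpa using this
        linarith
      have h2 : Real.log (1 + ‖z‖ ^ 2) ≤ Real.log 5 + 2 * Real.log R := by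
        have h4 : Real.log (5 * R ^ 2) = Real.log 5 + 2 * Real.log R := by
          rw [Real.log_mul (by norm_num) (by positivity), Real.log_pow]
          norm_num
        rw [← h4]
        refine Real.log_le_log (by positivity) ?_
        have h3 : ‖z‖ ^ 2 ≤ (2 * R) ^ 2 := pow_le_pow_left₀ (norm_nonneg _) h1 2
        nlinarith
      have h3 := hB z
      nlinarith [mul_le_mul_of_nonneg_left h2 hK]
    -- the points of `S` in the disc
    set T : Finset ℂ := (hS (2 * R)).toFinset with hT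
    have hTmem : ∀ q, q ∈ T ↔ q ∈ S ∧ ‖q‖ ≤ 2 * R := by
      intro q
      rw [hT, Set.Finite.mem_toFinset]
      simp
    have hball : ∀ z : ℂ, ‖z - a‖ ≤ R → ‖z‖ ≤ 2 * R := by
      intro z hz
      have := norm_add_le (z - a) a
      rw [sub_add_cancel] at this
      linarith
    set c₀ : ℝ := A - (2 * K + η) * Real.log r with hc₀
    have hcoef : 0 ≤ 2 * K + η := by positivity
    set D₀ : ℂ → ℝ := fun z => G z + -(2 * K + η) * Real.log ‖z - a‖ with hD₀
    have hD₀c : ContinuousOn D₀ {z | r ≤ ‖z - a‖} := by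
      intro z hz
      have hza : z ≠ a := by
        rintro rfl
        have : r ≤ ‖z - z‖ := hz
        simp at this
        linarith
      exact (hG.continuousAt.add (continuousAt_const.mul (contAt_log hza))).continuousWithinAt
    have hcomp : IsCompact (Metric.closedBall a R ∩ {z | r ≤ ‖z - a‖}) :=
      (isCompact_closedBall a R).inter_right (isClosed_le continuous_const (by fun_prop))
    obtain ⟨Mx, hMx⟩ : ∃ Mx, ∀ z, r ≤ ‖z - a‖ → ‖z - a‖ ≤ R → D₀ z ≤ Mx := by
      obtain ⟨z₀, -, hz₀⟩ := hcomp.exists_isMaxOn ⟨s, mem_closedBall_iff_norm.2 hR2.le, hs⟩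
        (hD₀c.mono inter_subset_right)
      exact ⟨D₀ z₀, fun z h1 h2 => hz₀ ⟨mem_closedBall_iff_norm.2 h2, h1⟩⟩
    -- the inequality with the logarithms
    have main : ∀ η' > 0, ∀ κ > 0,
        D₀ s + η' * ∑ q ∈ T, (Real.log ‖s - q‖ - Real.log (4 * R)) ≤ c₀ + κ * R ^ 2 := by
      intro η' hη' κ hκ
      have hsT : ∀ q ∈ T, 0 < ‖s - q‖ := fun q hq => norm_pos_iff.2 (sub_ne_zero.2 (by
        rintro rfl
        exact hsS ((hTmem s).1 hq).1))
      obtain ⟨δ, hδ0, hδ1, hδ2⟩ : ∃ δ > 0, (∀ q ∈ T, δ ≤ ‖s - q‖) ∧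
          Mx + η' * (Real.log δ - Real.log (4 * R)) ≤ c₀ := by
        have t1 : ∀ᶠ δ in 𝓝[>] (0 : ℝ), ∀ q ∈ T, δ ≤ ‖s - q‖ := by
          rw [Filter.eventually_all_finset]
          intro q hq
          exact ((eventually_lt_nhds (hsT q hq)).filter_mono nhdsWithin_le_nhds).mono
            fun _ h => h.le
        have t2 : ∀ᶠ δ in 𝓝[>] (0 : ℝ), Real.log δ ≤ (c₀ - Mx) / η' + Real.log (4 * R) :=
          Real.tendsto_log_nhdsGT_zero.eventually_le_atBot _
        obtain ⟨δ, ⟨h1, h2⟩, h3⟩ := ((t1.and t2).and self_mem_nhdsWithin).exists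
        refine ⟨δ, h3, h1, ?_⟩
        have h4 : η' * (Real.log δ - Real.log (4 * R)) ≤ η' * ((c₀ - Mx) / η') :=
          mul_le_mul_of_nonneg_left (by linarith) hη'.le
        rw [mul_div_cancel₀ _ hη'.ne'] at h4
        linarith
      set Ks : Set ℂ := {z | r ≤ ‖z - a‖ ∧ ‖z - a‖ ≤ R ∧ ∀ q ∈ T, δ ≤ ‖z - q‖} with hKs
      have hKc : IsCompact Ks := by
        have : Ks = (Metric.closedBall a R ∩ {z | r ≤ ‖z - a‖}) ∩
            ⋂ q ∈ T, {z : ℂ | δ ≤ ‖z - q‖} := by
          ext z
          simp only [hKs, mem_ofPred_eq, mem_inter_iff, mem_closedBall_iff_norm, mem_iInter]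
          tauto
        rw [this]
        exact hcomp.inter_right (isClosed_biInter fun q _ =>
          isClosed_le continuous_const (by fun_prop))
      set G' : ℂ → ℝ := fun z => G z + κ * ‖z - a‖ ^ 2 with hG'
      have hG'c : Continuous G' := hG.add (by fun_prop)
      have hsq : ∀ z : ℂ, ‖z - a‖ ≤ R → κ * ‖z - a‖ ^ 2 ≤ κ * R ^ 2 := fun z hz =>
        mul_le_mul_of_nonneg_left (pow_le_pow_left₀ (norm_nonneg _) hz 2) hκ.le
      set Dz : ℂ → ℝ := fun z => G' z + (-(2 * K + η) * Real.log ‖z - a‖ +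
        η' * ∑ q ∈ T, (Real.log ‖z - q‖ - Real.log (4 * R))) with hDz
      have hlogle : ∀ z : ℂ, ‖z - a‖ ≤ R → ∀ q ∈ T, Real.log ‖z - q‖ - Real.log (4 * R) ≤ 0 := by
        intro z hz q hq
        rcases (norm_nonneg (z - q)).eq_or_lt with h0 | h0
        · rw [← h0, Real.log_zero]
          have : 0 ≤ Real.log (4 * R) := Real.log_nonneg (by linarith)
          linarith
        · have h1 : ‖z - q‖ ≤ 4 * R := by
            have := norm_sub_le z q
            have := hball z hz
            have := ((hTmem q).1 hq).2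
            linarith
          linarith [Real.log_le_log h0 h1]
      have hDzle : ∀ z : ℂ, ‖z - a‖ ≤ R → Dz z ≤ D₀ z + κ * R ^ 2 := by
        intro z hz
        have hz2 := hsq z hz
        have : ∑ q ∈ T, (Real.log ‖z - q‖ - Real.log (4 * R)) ≤ 0 :=
          Finset.sum_nonpos (hlogle z hz)
        have h1 : η' * ∑ q ∈ T, (Real.log ‖z - q‖ - Real.log (4 * R)) ≤ 0 :=
          mul_nonpos_of_nonneg_of_nonpos hη'.le this
        simp only [hDz, hD₀, hG']
        linarith
      have hDc : ContinuousOn Dz Ks := by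
        rintro z ⟨hz1, hz2, hz3⟩
        have hza : z ≠ a := by
          rintro rfl
          simp at hz1
          linarith
        refine (hG'c.continuousAt.add ((continuousAt_const.mul (contAt_log hza)).add
          (continuousAt_const.mul ?_))).continuousWithinAt
        refine tendsto_finsetSum _ fun q hq => ?_
        refine (contAt_log ?_).sub continuousAt_const
        rintro rfl
        have := hz3 z hq
        simp at this
        linarith
      have hmax := Loc.max_le_compact hKc hDc (c := c₀ + κ * R ^ 2) (by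
        rintro p ⟨hp1, hp2, hp3⟩
        rcases hp1.eq_or_lt with h1 | h1
        · left
          refine (hDzle p hp2).trans ?_
          have h2 := hA p h1.symm
          simp only [hD₀, hc₀, ← h1]
          linarith
        rcases hp2.eq_or_lt with h2 | h2
        · left
          refine (hDzle p hp2).trans ?_
          have h3 := hout p h2
          simp only [hD₀, hc₀, h2]
          linarith
        by_cases h3 : ∃ q ∈ T, ‖p - q‖ = δ
        · left
          obtain ⟨q, hq, hq2⟩ := h3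
          have h4 : ∑ q ∈ T, (Real.log ‖p - q‖ - Real.log (4 * R)) ≤
              Real.log δ - Real.log (4 * R) := by
            rw [← hq2, ← Finset.add_sum_erase T _ hq]
            have : ∑ x ∈ T.erase q, (Real.log ‖p - x‖ - Real.log (4 * R)) ≤ 0 :=
              Finset.sum_nonpos fun x hx => hlogle p hp2 x (Finset.mem_of_mem_erase hx)
            linarith
          have h5 := mul_le_mul_of_nonneg_left h4 hη'.le
          have h6 := hMx p hp1 hp2
          have h7 := hsq p hp2
          simp only [hD₀] at h6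
          simp only [hDz, hG']
          linarith
        · right
          push Not at h3
          have hpT : ∀ q ∈ T, p ≠ q := by
            rintro q hq rfl
            have := hp3 p hq
            simp at this
            linarith
          have hpa : p ≠ a := by
            rintro rfl
            simp at h1
            linarith
          have hpS : p ∉ S := fun hp => hpT p ((hTmem p).2 ⟨hp, hball p hp2⟩) rfl
          have h4 := subAt_log hG'c T (-(2 * K + η)) η' (subAt_of_subAs
            (Eventually.of_forall fun z => hG.continuousAt) a hκ (h p hpS)) hpa hpT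
            (Real.log (4 * R))
          have o1 : ∀ᶠ ρ in 𝓝[>] (0 : ℝ), ρ < ‖p - a‖ - r :=
            (eventually_lt_nhds (sub_pos.2 h1)).filter_mono nhdsWithin_le_nhds
          have o2 : ∀ᶠ ρ in 𝓝[>] (0 : ℝ), ρ < R - ‖p - a‖ :=
            (eventually_lt_nhds (sub_pos.2 h2)).filter_mono nhdsWithin_le_nhds
          have o3 : ∀ᶠ ρ in 𝓝[>] (0 : ℝ), ∀ q ∈ T, ρ < ‖p - q‖ - δ := by
            rw [Filter.eventually_all_finset]
            intro q hq
            exact (eventually_lt_nhds (sub_pos.2 (lt_of_le_of_ne (hp3 q hq)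
              (h3 q hq).symm))).filter_mono nhdsWithin_le_nhds
          obtain ⟨ρ, ⟨⟨⟨h5, h6⟩, h7⟩, h8⟩, h9⟩ :=
            ((((h4.and o1).and o2).and o3).and self_mem_nhdsWithin).exists
          have h9' : 0 < ρ := h9
          refine ⟨ρ, h9', fun θ => ?_, h5⟩
          have hn : ‖(ρ : ℂ) * Complex.exp (θ * Complex.I)‖ = ρ := by
            rw [norm_mul, Complex.norm_exp_ofReal_mul_I, mul_one, Complex.norm_real,
              Real.norm_eq_abs, abs_of_pos h9']
          set e : ℂ := (ρ : ℂ) * Complex.exp (θ * Complex.I) with he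
          have hlow : ∀ q : ℂ, ‖p - q‖ - ρ ≤ ‖p + e - q‖ := by
            intro q
            have h10 : p - q = (p + e - q) - e := by ring
            have h11 := norm_sub_le (p + e - q) e
            rw [← h10, hn] at h11
            linarith
          refine ⟨?_, ?_, ?_⟩
          · have := hlow a
            linarith
          · have h10 : p + e - a = (p - a) + e := by ring
            rw [h10]
            have := norm_add_le (p - a) e
            rw [hn] at this
            linarith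
          · intro q hq
            have := hlow q
            have := h8 q hq
            linarith) s ⟨hs, hR2.le, hδ1⟩
      have hpos : 0 ≤ κ * ‖s - a‖ ^ 2 := by positivity
      simp only [hDz, hG'] at hmax
      simp only [hD₀]
      linarith
    have hfin : D₀ s ≤ c₀ := by
      refine le_of_forall_pos_le_add fun ε' hε' => ?_
      have hR2' : ε' / 2 / R ^ 2 * R ^ 2 = ε' / 2 := div_mul_cancel₀ _ (by positivity)
      set ε : ℝ := ε' / 2 with hεdef
      have hε : 0 < ε := half_pos hε'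
      set Sg : ℝ := ∑ q ∈ T, (Real.log ‖s - q‖ - Real.log (4 * R)) with hSg
      have h1 := main (ε / (|Sg| + 1)) (by positivity) (ε / R ^ 2) (by positivity)
      have h2 : |ε / (|Sg| + 1) * Sg| ≤ ε := by
        rw [abs_mul, abs_of_pos (by positivity : 0 < ε / (|Sg| + 1)), div_mul_eq_mul_div,
          div_le_iff₀ (by positivity)]
        nlinarith [abs_nonneg Sg]
      have h3 := neg_abs_le (ε / (|Sg| + 1) * Sg)
      linarith
    have h0 : 0 < ‖s - a‖ := hr.trans_le hs
    rw [Real.log_div h0.ne' hr.ne']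
    simp only [hD₀, hc₀] at hfin
    linarith
  -- step 2: all points
  have key2 : ∀ η > 0, G s ≤ A + (2 * K + η) * Real.log (‖s - a‖ / r) := by
    intro η hη
    have h0 : 0 < ‖s - a‖ := hr.trans_le hs
    have hsa : s - a ≠ 0 := norm_pos_iff.1 h0
    have hfinS := hS (‖a‖ + 2 * ‖s - a‖)
    have hcl : IsClosed ((S ∩ Metric.closedBall 0 (‖a‖ + 2 * ‖s - a‖)) \ {s}) :=
      (hfinS.subset sdiff_subset).isClosed
    set γ : ℝ → ℂ := fun t => a + ((1 + t : ℝ) : ℂ) * (s - a) with hγ
    have hγc : Continuous γ := by fun_prop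
    have hγ0 : γ 0 = s := by simp [hγ]
    have hγn : ∀ t, 0 < t → t < 1 → ‖γ t - a‖ = (1 + t) * ‖s - a‖ := by
      intro t ht _
      simp only [hγ, add_sub_cancel_left, norm_mul, Complex.norm_real, Real.norm_eq_abs]
      rw [abs_of_pos (by linarith)]
    have ev1 : ∀ᶠ t in 𝓝[>] (0 : ℝ), γ t ∉ (S ∩ Metric.closedBall 0 (‖a‖ + 2 * ‖s - a‖)) \ {s} := by
      have h1 : Tendsto γ (𝓝[>] 0) (𝓝 s) := by
        have := hγc.tendsto 0
        rw [hγ0] at this
        exact this.mono_left nhdsWithin_le_nhds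
      exact h1 (hcl.isOpen_compl.mem_nhds (by simp))
    have ev2 : ∀ᶠ t in 𝓝[>] (0 : ℝ), t < 1 :=
      (eventually_lt_nhds one_pos).filter_mono nhdsWithin_le_nhds
    have ev : ∀ᶠ t in 𝓝[>] (0 : ℝ),
        G (γ t) ≤ A + (2 * K + η) * Real.log (‖γ t - a‖ / r) := by
      filter_upwards [ev1, ev2, self_mem_nhdsWithin] with t h1 h2 h3
      have h3' : 0 < t := h3
      have hn := hγn t h3' h2
      refine key η hη (γ t) (fun hmem => h1 ⟨⟨hmem, ?_⟩, ?_⟩) ?_
      · rw [mem_closedBall_zero_iff]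
        have h4 := norm_add_le (γ t - a) a
        rw [sub_add_cancel, hn] at h4
        nlinarith
      · intro h4
        rw [mem_singleton_iff] at h4
        rw [h4] at hn
        nlinarith
      · rw [hn]
        nlinarith
    have l1 : Tendsto (fun t => G (γ t)) (𝓝[>] 0) (𝓝 (G s)) := by
      have := (hG.comp hγc).tendsto 0
      simp only [Function.comp_apply, hγ0] at this
      exact this.mono_left nhdsWithin_le_nhds
    have l2 : Tendsto (fun t => A + (2 * K + η) * Real.log (‖γ t - a‖ / r)) (𝓝[>] 0)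
        (𝓝 (A + (2 * K + η) * Real.log (‖s - a‖ / r))) := by
      have h5 : ContinuousAt (fun t => A + (2 * K + η) * Real.log (‖γ t - a‖ / r)) 0 := by
        refine continuousAt_const.add (continuousAt_const.mul (ContinuousAt.log ?_ ?_))
        · exact ((hγc.sub continuous_const).norm.div_const r).continuousAt
        · rw [hγ0]
          positivity
      have := h5.tendsto
      rw [hγ0] at this
      exact this.mono_left nhdsWithin_le_nhds
    exact le_of_tendsto_of_tendsto l1 l2 ev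
  refine le_of_forall_pos_le_add fun ε hε => ?_
  set L : ℝ := Real.log (‖s - a‖ / r) with hL
  have hL0 : 0 ≤ L := Real.log_nonneg ((one_le_div hr).2 hs)
  have h1 := key2 (ε / (L + 1)) (by positivity)
  have h2 : ε / (L + 1) * L ≤ ε := by
    rw [div_mul_eq_mul_div, div_le_iff₀ (by positivity)]
    nlinarith
  nlinarith

end Pool.Agent.KRFN
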