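import Pool.Agent.Work.MP_a2bf38_gt.N.Hada
import Mathlib.MeasureTheory.Measure.Lebesgue.Basic

/-!
# The Harnack inequality for sheeted curves

`U s` is an unordered `D`-tuple of real numbers, depending continuously on `s ∈ ℂ`, whose local
branches are subharmonic up to `K log (1 + |s|^2)`.  If it is nearly constant on the discs of radius
`r` about two points of the unit disc, then the values at these points are close to each other.

The functions used are `∑ i, max (U s i) c`.
-/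

open scoped ContDiff Topology
open Set MeasureTheory Filter Pool.Agent.KRFF Pool.Agent.KRFX

namespace Pool.Agent.KRFN

namespace Harn

open Hada

/-- `log (1 + |z|^2)` is subharmonic -/
theorem subAt_logsq (s : ℂ) : SubAt (fun z => Real.log (1 + ‖z‖ ^ 2)) s := by
  have hc : Continuous fun z : ℂ => Real.log (1 + ‖z‖ ^ 2) :=
    Continuous.log (by fun_prop) fun z => by positivity
  rcases eq_or_ne s 0 with rfl | hs
  · filter_upwards [self_mem_nhdsWithin] with r hr
    have hr' : 0 < r := hr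
    have h1 := cavg_mono (f := fun _ => (0 : ℝ)) hr'.le (circleIntegrable_const 0 0 r)
      (circle_int (s := 0) hr'.le fun z _ => hc.continuousAt) fun ξ _ =>
        Real.log_nonneg (by nlinarith [sq_nonneg ‖0 + ξ‖])
    rw [cavg_const] at h1
    simpa using h1
  · have hs0 : 0 < ‖s‖ := norm_pos_iff.2 hs
    set q : ℂ := -(starRingEnd ℂ s)⁻¹ with hq
    have hcs : (starRingEnd ℂ) s ≠ 0 := by simpa using hs
    have hfac : ∀ z : ℂ, 1 + (starRingEnd ℂ) s * z = (starRingEnd ℂ) s * (z - q) := by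
      intro z
      rw [hq]
      field_simp
      ring
    have hss : (starRingEnd ℂ) s * s = ((‖s‖ ^ 2 : ℝ) : ℂ) := by
      rw [mul_comm, Complex.mul_conj, Complex.normSq_eq_norm_sq]
    have hval : ‖1 + (starRingEnd ℂ) s * s‖ = 1 + ‖s‖ ^ 2 := by
      rw [hss]
      have : (1 : ℂ) + ((‖s‖ ^ 2 : ℝ) : ℂ) = ((1 + ‖s‖ ^ 2 : ℝ) : ℂ) := by push_cast; ring
      rw [this, Complex.norm_real, Real.norm_eq_abs, abs_of_pos (by positivity)]
    have hsq : 0 < ‖s - q‖ := by
      rw [norm_pos_iff]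
      intro h0
      have h1 := hfac s
      rw [h0, mul_zero] at h1
      rw [h1, norm_zero] at hval
      nlinarith
    have hCS : ∀ z : ℂ, ‖1 + (starRingEnd ℂ) s * z‖ ^ 2 ≤ (1 + ‖s‖ ^ 2) * (1 + ‖z‖ ^ 2) := by
      intro z
      have h1 : ‖1 + (starRingEnd ℂ) s * z‖ ≤ 1 + ‖s‖ * ‖z‖ := by
        refine (norm_add_le _ _).trans ?_
        rw [norm_one, norm_mul, Complex.norm_conj]
      have h2 : ‖1 + (starRingEnd ℂ) s * z‖ ^ 2 ≤ (1 + ‖s‖ * ‖z‖) ^ 2 :=
        pow_le_pow_left₀ (norm_nonneg _) h1 2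
      nlinarith [sq_nonneg (‖s‖ - ‖z‖)]
    have ev : ∀ᶠ r in 𝓝[>] (0 : ℝ), r < ‖s - q‖ :=
      (eventually_lt_nhds hsq).filter_mono nhdsWithin_le_nhds
    filter_upwards [ev, self_mem_nhdsWithin] with r hr hr0
    have hr' : 0 < r := hr0
    have hne : ∀ z, ‖z - s‖ = r → z ≠ q := by
      rintro z hz rfl
      rw [norm_sub_rev] at hz
      linarith
    have i1 : CircleIntegrable (fun ξ => Real.log ‖s + ξ - q‖) 0 r :=
      circle_int (G := fun z => Real.log ‖z - q‖) hr'.le fun z hz => contAt_log (hne z hz)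
    have i2 : CircleIntegrable (fun ξ => 2 * Real.log ‖s + ξ - q‖) 0 r :=
      i1.const_fun_smul (a := (2 : ℝ))
    set c : ℝ := 2 * Real.log ‖s‖ - Real.log (1 + ‖s‖ ^ 2) with hcdef
    have i3 : CircleIntegrable (fun ξ => 2 * Real.log ‖s + ξ - q‖ + c) 0 r :=
      i2.add (circleIntegrable_const c 0 r)
    have h1 : cavg (fun ξ => 2 * Real.log ‖s + ξ - q‖ + c) r = 2 * Real.log ‖s - q‖ + c := by
      rw [cavg_add i2 (circleIntegrable_const c 0 r), cavg_const, cavg_const_mul,
        cavg_log hr' hr]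
    have h2 : 2 * Real.log ‖s - q‖ + c = Real.log (1 + ‖s‖ ^ 2) := by
      have h3 : ‖(starRingEnd ℂ) s * (s - q)‖ = 1 + ‖s‖ ^ 2 := by rw [← hfac, hval]
      rw [norm_mul, Complex.norm_conj] at h3
      have h4 : Real.log (‖s‖ * ‖s - q‖) = Real.log ‖s‖ + Real.log ‖s - q‖ :=
        Real.log_mul hs0.ne' hsq.ne'
      rw [h3] at h4
      rw [hcdef]
      linarith
    have h5 : cavg (fun ξ => 2 * Real.log ‖s + ξ - q‖ + c) r ≤
        cavg (fun ξ => Real.log (1 + ‖s + ξ‖ ^ 2)) r := by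
      refine cavg_mono hr'.le i3 (circle_int hr'.le fun z _ => hc.continuousAt) fun ξ hξ => ?_
      have h6 := hCS (s + ξ)
      rw [hfac] at h6
      have hzq : 0 < ‖s + ξ - q‖ := by
        rw [norm_pos_iff, sub_ne_zero]
        exact hne _ (by simpa using hξ)
      have h7 : Real.log (‖(starRingEnd ℂ) s * (s + ξ - q)‖ ^ 2) ≤
          Real.log ((1 + ‖s‖ ^ 2) * (1 + ‖s + ξ‖ ^ 2)) :=
        Real.log_le_log (by
          rw [norm_mul, Complex.norm_conj]
          positivity) h6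
      rw [Real.log_pow, norm_mul, Complex.norm_conj, Real.log_mul hs0.ne' hzq.ne',
        Real.log_mul (by positivity) (by positivity)] at h7
      rw [hcdef]
      push_cast at h7
      linarith
    rw [h1, h2] at h5
    exact h5

variable {D : ℕ}

/-- the sum of the maxima with `c` -/
noncomputable def Phi (a : Fin D → ℝ) (c : ℝ) : ℝ := ∑ i, max (a i) c

theorem phi_close {a b : Fin D → ℝ} {ε : ℝ} (c : ℝ)
    (h : ∃ σ : Equiv.Perm (Fin D), ∀ i, |a (σ i) - b i| ≤ ε) :
    |Phi a c - Phi b c| ≤ D * ε := by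
  obtain ⟨σ, hσ⟩ := h
  have h1 : Phi a c = ∑ i, max (a (σ i)) c :=
    (Equiv.sum_comp σ fun i => max (a i) c).symm
  rw [h1, Phi, ← Finset.sum_sub_distrib]
  refine (Finset.abs_sum_le_sum_abs _ _).trans ?_
  have h2 : ∀ i ∈ Finset.univ, |max (a (σ i)) c - max (b i) c| ≤ ε := fun i _ =>
    (abs_max_sub_max_le_abs _ _ _).trans (hσ i)
  have := Finset.sum_le_card_nsmul _ _ _ h2
  simpa using this

/-- a value of `a` is close to a value of `b` -/
theorem near {a b : Fin D → ℝ} {E : ℝ} (h : ∀ c, |Phi a c - Phi b c| ≤ E) (i : Fin D) :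
    ∃ j, |a i - b j| ≤ 4 * E := by
  by_contra hcon
  push Not at hcon
  haveI : Nonempty (Fin D) := ⟨i⟩
  obtain ⟨j₀, hj₀⟩ := Finite.exists_min fun j => |a i - b j|
  set δ : ℝ := |a i - b j₀| with hδ
  have hδE : 4 * E < δ := hcon j₀
  have hE : 0 ≤ E := (abs_nonneg _).trans (h 0)
  have hδ0 : 0 ≤ δ := abs_nonneg _
  set x : ℝ := a i with hx
  have hb : Phi b (x + δ) + Phi b (x - δ) = 2 * Phi b x := by
    simp only [Phi]
    rw [← Finset.sum_add_distrib, Finset.mul_sum]
    refine Finset.sum_congr rfl fun j _ => ?_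
    have h1 := hj₀ j
    rcases le_total (b j) x with h2 | h2
    · rw [abs_of_nonneg (sub_nonneg.2 h2)] at h1
      rw [max_eq_right h2, max_eq_right (by linarith : b j ≤ x + δ),
        max_eq_right (by linarith : b j ≤ x - δ)]
      ring
    · rw [abs_of_nonpos (sub_nonpos.2 h2)] at h1
      rw [max_eq_left h2, max_eq_left (by linarith : x + δ ≤ b j),
        max_eq_left (by linarith : x - δ ≤ b j)]
      ring
  have ha : 2 * Phi a x + δ ≤ Phi a (x + δ) + Phi a (x - δ) := by
    simp only [Phi]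
    rw [← Finset.sum_add_distrib, Finset.mul_sum, ← Finset.add_sum_erase _ _ (Finset.mem_univ i),
      ← Finset.add_sum_erase (a := i) _ _ (Finset.mem_univ i)]
    have h1 : 2 * max (a i) x + δ = max (a i) (x + δ) + max (a i) (x - δ) := by
      rw [← hx, max_self, max_eq_right (by linarith : x ≤ x + δ),
        max_eq_left (by linarith : x - δ ≤ x)]
      ring
    have h2 : ∑ j ∈ Finset.univ.erase i, 2 * max (a j) x ≤
        ∑ j ∈ Finset.univ.erase i, (max (a j) (x + δ) + max (a j) (x - δ)) := by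
      refine Finset.sum_le_sum fun j _ => ?_
      rcases le_total (a j) x with h3 | h3
      · rw [max_eq_right h3]
        have := le_max_right (a j) (x + δ)
        have := le_max_right (a j) (x - δ)
        linarith
      · rw [max_eq_left h3]
        have := le_max_left (a j) (x + δ)
        have := le_max_left (a j) (x - δ)
        linarith
    linarith
  have e1 := abs_le.1 (h (x + δ))
  have e2 := abs_le.1 (h (x - δ))
  have e3 := abs_le.1 (h x)
  linarith [e1.2, e2.2, e3.1]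

/-- the maximum with a constant -/
theorem subAs_max {u : ℂ → ℝ} {s : ℂ} {K : ℝ} (hK : 0 ≤ K) (c : ℝ)
    (hu : ∀ᶠ z in 𝓝 s, ContinuousAt u z)
    (h : SubAs (fun z => u z + K * Real.log (1 + ‖z‖ ^ 2)) s) {ε' : ℝ} (hε' : 0 < ε') :
    ∀ᶠ r in 𝓝[>] (0 : ℝ), (∀ z, ‖z - s‖ = r → ContinuousAt u z) ∧
      max (u s) c + K * Real.log (1 + ‖s‖ ^ 2) ≤
        cavg (fun ξ => max (u (s + ξ)) c + K * Real.log (1 + ‖s + ξ‖ ^ 2)) r + ε' * r ^ 2 := by
  have hc : Continuous fun z : ℂ => K * Real.log (1 + ‖z‖ ^ 2) :=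
    continuous_const.mul (Continuous.log (by fun_prop) fun z => by positivity)
  obtain ⟨ε, hε, hε2⟩ := Metric.eventually_nhds_iff.1 hu
  have ev : ∀ᶠ r in 𝓝[>] (0 : ℝ), r < ε :=
    (eventually_lt_nhds hε).filter_mono nhdsWithin_le_nhds
  filter_upwards [h ε' hε', subAt_logsq s, ev, self_mem_nhdsWithin] with r h1 h2 h3 h4
  have hr : 0 < r := h4
  have hεr : 0 ≤ ε' * r ^ 2 := by positivity
  have hcu : ∀ z, ‖z - s‖ = r → ContinuousAt u z := fun z hz =>
    hε2 (by rw [dist_eq_norm, hz]; exact h3)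
  refine ⟨hcu, ?_⟩
  have i0 : CircleIntegrable (fun ξ => K * Real.log (1 + ‖s + ξ‖ ^ 2)) 0 r :=
    circle_int (G := fun z => K * Real.log (1 + ‖z‖ ^ 2)) hr.le fun z _ => hc.continuousAt
  have i1 : CircleIntegrable (fun ξ => u (s + ξ) + K * Real.log (1 + ‖s + ξ‖ ^ 2)) 0 r :=
    circle_int (G := fun z => u z + K * Real.log (1 + ‖z‖ ^ 2)) hr.le fun z hz =>
      (hcu z hz).add hc.continuousAt
  have i2 : CircleIntegrable (fun ξ => max (u (s + ξ)) c + K * Real.log (1 + ‖s + ξ‖ ^ 2)) 0 r :=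
    circle_int (G := fun z => max (u z) c + K * Real.log (1 + ‖z‖ ^ 2)) hr.le fun z hz =>
      ((hcu z hz).max continuousAt_const).add hc.continuousAt
  have i3 : CircleIntegrable (fun ξ => c + K * Real.log (1 + ‖s + ξ‖ ^ 2)) 0 r :=
    (circleIntegrable_const c 0 r).add i0
  rw [← max_add_add_right]
  refine max_le ?_ ?_
  · refine h1.trans (add_le_add_left (cavg_mono hr.le i1 i2 fun ξ _ => ?_) _)
    have := le_max_left (u (s + ξ)) c
    linarith
  · have h5 : c + K * Real.log (1 + ‖s‖ ^ 2) ≤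
        cavg (fun ξ => c + K * Real.log (1 + ‖s + ξ‖ ^ 2)) r := by
      rw [cavg_add (circleIntegrable_const c 0 r) i0, cavg_const, cavg_const_mul]
      have := mul_le_mul_of_nonneg_left h2 hK
      linarith
    have h6 : cavg (fun ξ => c + K * Real.log (1 + ‖s + ξ‖ ^ 2)) r ≤
        cavg (fun ξ => max (u (s + ξ)) c + K * Real.log (1 + ‖s + ξ‖ ^ 2)) r := by
      refine cavg_mono hr.le i3 i2 fun ξ _ => ?_
      have := le_max_right (u (s + ξ)) c
      linarith
    linarith

end Harn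

open Harn Hada

/-- **Harnack for sheeted curves** -/
theorem curve_le {D : ℕ} {U : ℂ → Fin D → ℝ} {B K : ℝ} (hK : 0 ≤ K) (hb : ∀ s i, |U s i| ≤ B)
    (hc : ∀ s, ∀ ε > 0, ∀ᶠ s' in 𝓝 s, ∃ σ : Equiv.Perm (Fin D), ∀ i, |U s' (σ i) - U s i| ≤ ε)
    {S : Set ℂ} (hS : ∀ R : ℝ, (S ∩ Metric.closedBall 0 R).Finite)
    (hsub : ∀ s, s ∉ S → ∃ u : Fin D → ℂ → ℝ,
      (∀ᶠ s' in 𝓝 s, ∃ σ : Equiv.Perm (Fin D), ∀ i, U s' (σ i) = u i s') ∧
      ∀ i, (∀ᶠ s' in 𝓝 s, ContinuousAt (u i) s') ∧
        SubAs (fun z => u i z + K * Real.log (1 + ‖z‖ ^ 2)) s)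
    {s₀ s₁ : ℂ} (h₀ : ‖s₀‖ ≤ 1) (h₁ : ‖s₁‖ ≤ 1) {r δ : ℝ} (hr : 0 < r) (hr1 : r ≤ 1)
    (f₀ : ∀ s, ‖s - s₀‖ ≤ r → ∃ σ : Equiv.Perm (Fin D), ∀ i, |U s (σ i) - U s₀ i| ≤ δ)
    (f₁ : ∀ s, ‖s - s₁‖ ≤ r → ∃ σ : Equiv.Perm (Fin D), ∀ i, |U s (σ i) - U s₁ i| ≤ δ)
    (i : Fin D) : ∃ j, |U s₁ i - U s₀ j| ≤
      4 * (D * (δ + 2 * K * Real.log (2 / r) + K * Real.log 5)) := by
  haveI : Nonempty (Fin D) := ⟨i⟩
  have hD : (0 : ℝ) ≤ D := Nat.cast_nonneg D
  have hδ : 0 ≤ δ := by
    obtain ⟨σ, hσ⟩ := f₀ s₀ (by simpa using hr.le)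
    exact (abs_nonneg _).trans (hσ i)
  refine near (fun c => ?_) i
  -- the function
  set F : ℂ → ℝ := fun s => Phi (U s) c with hF
  set G : ℂ → ℝ := fun s => F s + D * K * Real.log (1 + ‖s‖ ^ 2) with hG
  have hFc : Continuous F := by
    rw [continuous_iff_continuousAt]
    intro s
    rw [ContinuousAt, Metric.tendsto_nhds]
    intro ε hε
    filter_upwards [hc s (ε / (D + 1)) (by positivity)] with s' hs'
    have h1 := phi_close (a := U s') (b := U s) c hs'
    rw [Real.dist_eq]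
    refine h1.trans_lt ?_
    rw [mul_div_assoc', div_lt_iff₀ (by positivity)]
    nlinarith
  have hLc : Continuous fun z : ℂ => Real.log (1 + ‖z‖ ^ 2) :=
    Continuous.log (by fun_prop) fun z => by positivity
  have hGc : Continuous G := hFc.add (continuous_const.mul hLc)
  have hGsub : ∀ s, s ∉ S → SubAs G s := by
    intro s hs ε₀ hε₀
    obtain ⟨u, hu1, hu2⟩ := hsub s hs
    have h1 : ∀ᶠ r in 𝓝[>] (0 : ℝ), ∀ i, (∀ z, ‖z - s‖ = r → ContinuousAt (u i) z) ∧
        max (u i s) c + K * Real.log (1 + ‖s‖ ^ 2) ≤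
          cavg (fun ξ => max (u i (s + ξ)) c + K * Real.log (1 + ‖s + ξ‖ ^ 2)) r +
            ε₀ / (D + 1) * r ^ 2 := by
      rw [Filter.eventually_all]
      exact fun i => subAs_max hK c (hu2 i).1 (hu2 i).2 (by positivity)
    have hGu : ∀ s', (∃ σ : Equiv.Perm (Fin D), ∀ i, U s' (σ i) = u i s') →
        G s' = ∑ i, (max (u i s') c + K * Real.log (1 + ‖s'‖ ^ 2)) := by
      rintro s' ⟨σ, hσ⟩
      have h2 : Phi (U s') c = ∑ i, max (U s' (σ i)) c :=
        (Equiv.sum_comp σ fun i => max (U s' i) c).symm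
      simp only [hG, hF, h2, hσ, Finset.sum_add_distrib, Finset.sum_const, Finset.card_univ,
        Fintype.card_fin, nsmul_eq_mul]
      ring
    obtain ⟨ε, hε, hε2⟩ := Metric.eventually_nhds_iff.1 hu1
    have ev : ∀ᶠ r in 𝓝[>] (0 : ℝ), r < ε :=
      (eventually_lt_nhds hε).filter_mono nhdsWithin_le_nhds
    filter_upwards [h1, ev, self_mem_nhdsWithin] with r h2 h3 h4
    have hr' : 0 < r := h4
    rw [hGu s (hε2 (by simpa using hε))]
    have h5 : cavg (fun ξ => G (s + ξ)) r =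
        cavg (fun ξ => ∑ i, (max (u i (s + ξ)) c + K * Real.log (1 + ‖s + ξ‖ ^ 2))) r := by
      rw [Loc.cavg_eq, Loc.cavg_eq]
      refine Real.circleAverage_congr_sphere fun ξ hξ => ?_
      have hξ' : ‖ξ‖ = r := by simpa [abs_of_pos hr'] using hξ
      exact hGu (s + ξ) (hε2 (by simpa [dist_eq_norm, hξ'] using h3))
    rw [h5, cavg_sum]
    · refine (Finset.sum_le_sum fun i _ => (h2 i).2).trans ?_
      rw [Finset.sum_add_distrib, Finset.sum_const, Finset.card_univ, Fintype.card_fin,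
        nsmul_eq_mul]
      have h6 : (D : ℝ) * (ε₀ / (D + 1) * r ^ 2) ≤ ε₀ * r ^ 2 := by
        have h7 : (D : ℝ) * (ε₀ / (D + 1) * r ^ 2) = ε₀ * r ^ 2 * (D / (D + 1)) := by ring
        rw [h7]
        refine mul_le_of_le_one_right (by positivity) ?_
        rw [div_le_one (by positivity)]
        linarith
      linarith
    · intro i _
      exact circle_int (G := fun z => max (u i z) c + K * Real.log (1 + ‖z‖ ^ 2)) hr'.le
        fun z hz => (((h2 i).1 z hz).max continuousAt_const).add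
          (continuous_const.mul hLc).continuousAt
  have hGb : ∀ s, G s ≤ D * max B c + D * K * Real.log (1 + ‖s‖ ^ 2) := by
    intro s
    have h1 : Phi (U s) c ≤ D * max B c := by
      have h2 : ∀ i ∈ Finset.univ, max (U s i) c ≤ max B c := fun i _ =>
        max_le_max ((le_abs_self _).trans (hb s i)) le_rfl
      have := Finset.sum_le_card_nsmul _ _ _ h2
      simpa [Phi] using this
    simp only [hG, hF]
    linarith
  have hlog0 : 0 ≤ Real.log (2 / r) := Real.log_nonneg (by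
    rw [one_le_div hr]
    linarith)
  have hlog5 : 0 ≤ Real.log 5 := Real.log_nonneg (by norm_num)
  -- one side
  have side : ∀ a b : ℂ, ‖a‖ ≤ 1 → ‖b‖ ≤ 1 →
      (∀ s, ‖s - a‖ ≤ r → ∃ σ : Equiv.Perm (Fin D), ∀ i, |U s (σ i) - U a i| ≤ δ) →
      F b ≤ F a + D * (δ + 2 * K * Real.log (2 / r) + K * Real.log 5) := by
    intro a b ha hb' hf
    have hDK : 0 ≤ D * K := mul_nonneg hD hK
    have hclose : ∀ s, ‖s - a‖ ≤ r → F s ≤ F a + D * δ := by
      intro s hs
      have := (abs_le.1 (phi_close (a := U s) (b := U a) c (hf s hs))).2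
      simp only [hF]
      linarith
    rcases le_or_gt r ‖b - a‖ with hba | hba
    · have h1 := growth hGc hS hGsub hDK hGb hr (a := a) (A := F a + D * δ + D * K * Real.log 5)
        (fun s hs => by
          have h2 := hclose s hs.le
          have h3 : Real.log (1 + ‖s‖ ^ 2) ≤ Real.log 5 := by
            refine Real.log_le_log (by positivity) ?_
            have h4 : ‖s‖ ≤ 2 := by
              have := norm_add_le (s - a) a
              rw [sub_add_cancel] at this
              linarith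
            nlinarith [norm_nonneg s]
          have h5 := mul_le_mul_of_nonneg_left h3 hDK
          simp only [hG]
          linarith) hba
      have h6 : Real.log (‖b - a‖ / r) ≤ Real.log (2 / r) := by
        refine Real.log_le_log (div_pos (hr.trans_le hba) hr) ?_
        gcongr
        have := norm_sub_le b a
        linarith
      have h7 : F b ≤ G b := by
        simp only [hG]
        have : 0 ≤ Real.log (1 + ‖b‖ ^ 2) := Real.log_nonneg (by nlinarith [sq_nonneg ‖b‖])
        have := mul_nonneg hDK this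
        linarith
      have h8 := mul_le_mul_of_nonneg_left h6 (by positivity : 0 ≤ 2 * (D * K))
      linarith
    · have h1 := hclose b hba.le
      have h2 : 0 ≤ D * (2 * K * Real.log (2 / r) + K * Real.log 5) := by positivity
      linarith
  rw [abs_le]
  have e1 := side s₀ s₁ h₀ h₁ f₀
  have e2 := side s₁ s₀ h₁ h₀ f₁
  simp only [hF] at e1 e2
  constructor <;> linarith

/-- a continuous function on a connected set whose values are close to `D` given values -/
theorem osc_le {X ι : Type*} [TopologicalSpace X] {A : Set X} (hA : IsPreconnected A) {v : X → ℝ}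
    (hv : ContinuousOn v A) (P : Finset ι) (q : ι → ℝ) {E : ℝ} (hE : 0 ≤ E)
    (h : ∀ x ∈ A, ∃ p ∈ P, |v x - q p| ≤ E) {x x' : X} (hx : x ∈ A) (hx' : x' ∈ A) :
    |v x - v x'| ≤ 2 * P.card * E := by
  wlog hle : v x ≤ v x' generalizing x x'
  · rw [abs_sub_comm]
    exact this hx' hx (le_of_not_ge hle)
  have hI : Icc (v x) (v x') ⊆ v '' A :=
    (hA.image v hv).Icc_subset (mem_image_of_mem v hx) (mem_image_of_mem v hx')
  have hcov : Icc (v x) (v x') ⊆ ⋃ p ∈ P, Icc (q p - E) (q p + E) := by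
    intro t ht
    obtain ⟨z, hz, rfl⟩ := hI ht
    obtain ⟨p, hp, hpz⟩ := h z hz
    rw [abs_le] at hpz
    simp only [mem_iUnion, mem_Icc, exists_prop]
    exact ⟨p, hp, by linarith [hpz.1], by linarith [hpz.2]⟩
  have h1 : volume (Icc (v x) (v x')) ≤ ∑ p ∈ P, volume (Icc (q p - E) (q p + E)) :=
    (measure_mono hcov).trans (measure_biUnion_finset_le P _)
  have h2 : ∀ p ∈ P, volume (Icc (q p - E) (q p + E)) = ENNReal.ofReal (2 * E) := by
    intro p _
    rw [Real.volume_Icc]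
    congr 1
    ring
  rw [Real.volume_Icc, Finset.sum_congr rfl h2, Finset.sum_const, nsmul_eq_mul,
    ← ENNReal.ofReal_natCast, ← ENNReal.ofReal_mul (Nat.cast_nonneg _),
    ENNReal.ofReal_le_ofReal_iff (by positivity)] at h1
  rw [abs_sub_comm, abs_of_nonneg (sub_nonneg.2 hle)]
  linarith

end Pool.Agent.KRFN
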