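import Pool.Agent.Work.MP_a2bf38_gt.N.Ultra

/-!
# Fibres of algebraic correspondences which contain all nearby fibres (helper2)

`Γ` is an algebraic set of pairs `(x, y)`, invariant under multiplication of `x` and of `y` by
positive numbers.  Every `y` is close to a `y'` such that the fibres of all points near `y'` are near
the fibre of `y'`, with uniform exponents.
-/

open Polynomial Filter Topology

namespace Pool.Agent.KRFN

namespace Loj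

open Ultra

variable {σ τ : Type} [Fintype σ] [Fintype τ]

theorem exp_lt_one {x : ℝ} (h : x < 0) : Real.exp x < 1 := by
  rw [← Real.exp_zero]
  exact Real.exp_lt_exp.2 h

/-- the zeros of the polynomials in `S` -/
def Gam (S : Finset (MvPolynomial (σ ⊕ τ) ℂ)) (x : σ → ℂ) (y : τ → ℂ) : Prop :=
  ∀ P ∈ S, MvPolynomial.eval (Sum.elim x y) P = 0

noncomputable def cc : ℂ →+* KK := cr.comp (Pi.constRingHom ℕ ℂ)

theorem cr_eval {ι : Type} (P : MvPolynomial ι ℂ) (F : ι → ℕ → ℂ) :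
    P.eval₂ cc (fun i => cr (F i)) = cr (fun n => MvPolynomial.eval (fun i => F i n) P) := by
  have h1 := MvPolynomial.hom_eval₂ P (Pi.constRingHom ℕ ℂ) cr F
  have h2 : (fun n => MvPolynomial.eval (fun i => F i n) P) = P.eval₂ (Pi.constRingHom ℕ ℂ) F := by
    funext n
    have h3 := MvPolynomial.hom_eval₂ P (Pi.constRingHom ℕ ℂ) (Pi.evalRingHom (fun _ => ℂ) n) F
    change MvPolynomial.eval (fun i => F i n) P =
      Pi.evalRingHom (fun _ => ℂ) n (P.eval₂ (Pi.constRingHom ℕ ℂ) F)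
    rw [h3]
    rfl
  rw [h2, h1]
  rfl

section

variable {L : ℕ → ℝ} {hL : Tendsto L atTop atTop}

theorem small_of_val {ι : Type} [Finite ι] {F : ι → ℕ → ℂ}
    (h : ∀ i, (OO L hL).valuation (cr (F i)) < 1) : ∃ ε > 0,
    ∀ᶠ n in (hyperfilter ℕ : Filter ℕ), ∀ i, ‖F i n‖ ≤ Real.exp (-(ε * L n)) := by
  have := Fintype.ofFinite ι
  choose ε hε h2 using fun i => val_lt_iff.1 (h i)
  obtain ⟨e, he0, he⟩ : ∃ e > 0, ∀ i, e ≤ ε i := by
    rcases isEmpty_or_nonempty ι with hι | hι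
    · exact ⟨1, one_pos, fun i => (hι.false i).elim⟩
    · obtain ⟨i₀, hi₀⟩ := Finite.exists_min ε
      exact ⟨ε i₀, hε i₀, hi₀⟩
  refine ⟨e, he0, ?_⟩
  have h3 : ∀ᶠ n in (hyperfilter ℕ : Filter ℕ), ∀ i, ‖F i n‖ ≤ Real.exp (-(ε i * L n)) :=
    eventually_all.2 h2
  filter_upwards [h3, eventually_of_atTop (hL.eventually_ge_atTop 0)] with n hn hLn i
  refine (hn i).trans (Real.exp_le_exp.2 (neg_le_neg ?_))
  exact mul_le_mul_of_nonneg_right (he i) hLn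

theorem norm_le_of_pi {ι : Type} [Fintype ι] {v : ι → ℂ} {c : ℝ} (hc : 0 ≤ c)
    (h : ∀ i, ‖v i‖ ≤ c) : ‖v‖ ≤ c := (pi_norm_le_iff_of_nonneg hc).2 h

/-- normalization -/
theorem normalize {ι : Type} [Fintype ι] {x ξ : ι → ℂ} {δ : ℝ} (hx : ‖x‖ = 1)
    (h : ‖x - ξ‖ ≤ δ) (hδ : δ < 1) : 0 < ‖ξ‖ ∧ ‖(‖ξ‖⁻¹ : ℝ) • ξ‖ = 1 ∧
      ‖x - (‖ξ‖⁻¹ : ℝ) • ξ‖ ≤ 2 * δ := by
  have h1 : |‖x‖ - ‖ξ‖| ≤ δ := (abs_norm_sub_norm_le x ξ).trans h
  rw [hx] at h1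
  have h2 : 0 < ‖ξ‖ := by
    have := (abs_le.1 h1).2
    linarith
  refine ⟨h2, ?_, ?_⟩
  · rw [norm_smul, norm_inv, norm_norm, inv_mul_cancel₀ h2.ne']
  · have h3 : ‖ξ - (‖ξ‖⁻¹ : ℝ) • ξ‖ ≤ δ := by
      have h4 : ξ - (‖ξ‖⁻¹ : ℝ) • ξ = (1 - ‖ξ‖⁻¹ : ℝ) • ξ := by rw [sub_smul, one_smul]
      rw [h4, norm_smul, Real.norm_eq_abs]
      have h5 : |1 - ‖ξ‖⁻¹| * ‖ξ‖ = |‖ξ‖ - 1| := by
        rw [← abs_of_pos h2, ← abs_mul, abs_of_pos h2, sub_mul, one_mul,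
          inv_mul_cancel₀ h2.ne']
      rw [h5, abs_sub_comm]
      exact h1
    calc ‖x - (‖ξ‖⁻¹ : ℝ) • ξ‖ = ‖(x - ξ) + (ξ - (‖ξ‖⁻¹ : ℝ) • ξ)‖ := by congr 1; abel
      _ ≤ δ + δ := (norm_add_le _ _).trans (add_le_add h h3)
      _ = 2 * δ := by ring

omit [Fintype σ] [Fintype τ] in
/-- the retraction of a sequence of points -/
theorem retract {S : Finset (MvPolynomial (σ ⊕ τ) ℂ)} (π : OO L hL →+* KK)
    (hπ1 : ∀ c : ℂ, ∀ h : cr (fun _ => c) ∈ OO L hL,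
      π ⟨cr (fun _ => c), h⟩ = cr (fun _ => c))
    {x : ℕ → σ → ℂ} {y : ℕ → τ → ℂ} (hx : ∀ i, cr (fun n => x n i) ∈ OO L hL)
    (hy : ∀ j, cr (fun n => y n j) ∈ OO L hL) (hxy : ∀ n, Gam S (x n) (y n))
    {ξ : ℕ → σ → ℂ} {η : ℕ → τ → ℂ} (hξ : ∀ i, cr (fun n => ξ n i) = π ⟨_, hx i⟩)
    (hη : ∀ j, cr (fun n => η n j) = π ⟨_, hy j⟩) :
    ∀ᶠ n in (hyperfilter ℕ : Filter ℕ), Gam S (ξ n) (η n) := by
  unfold Gam
  rw [Filter.eventually_all_finset]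
  intro P hP
  rw [← cr_eq_zero (f := fun n => MvPolynomial.eval (Sum.elim (ξ n) (η n)) P)]
  -- the polynomial in the valuation ring
  have hcc : ∀ c : ℂ, cc c ∈ OO L hL := fun c =>
    mem_OO_of_bdd (C := ‖c‖) fun j => le_rfl
  set c' : ℂ →+* OO L hL := cc.codRestrict (OO L hL) hcc with hc'
  set V : σ ⊕ τ → OO L hL := Sum.elim (fun i => ⟨_, hx i⟩) (fun j => ⟨_, hy j⟩) with hV
  have h1 : ((P.eval₂ c' V : OO L hL) : KK) = 0 := by
    have h2 := MvPolynomial.hom_eval₂ P c' (OO L hL).subtype V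
    have h3 : ((OO L hL).subtype).comp c' = cc := rfl
    rw [h3] at h2
    change (OO L hL).subtype (P.eval₂ c' V) = 0
    rw [h2]
    have h4 : (fun i => (OO L hL).subtype (V i)) =
        fun i => cr ((Sum.elim (fun i n => x n i) (fun j n => y n j) : σ ⊕ τ → ℕ → ℂ) i) := by
      funext i
      rcases i with i | j <;> rfl
    rw [h4, cr_eval, cr_eq_zero]
    refine Eventually.of_forall fun n => ?_
    have h5 : (fun i => (Sum.elim (fun i n => x n i) (fun j n => y n j) : σ ⊕ τ → ℕ → ℂ) i n) =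
        Sum.elim (x n) (y n) := by
      funext i
      rcases i with i | j <;> rfl
    rw [h5]
    exact hxy n P hP
  have h1' : P.eval₂ c' V = 0 := Subtype.ext h1
  have h6 := MvPolynomial.hom_eval₂ P c' π V
  rw [h1', map_zero] at h6
  have h7 : π.comp c' = cc := by
    ext c
    exact hπ1 c (hcc c)
  have h8 : (fun i => π (V i)) =
      fun i => cr ((Sum.elim (fun i n => ξ n i) (fun j n => η n j) : σ ⊕ τ → ℕ → ℂ) i) := by
    funext i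
    rcases i with i | j
    · exact (hξ i).symm
    · exact (hη j).symm
  rw [h7, h8, cr_eval] at h6
  refine Eq.trans ?_ h6.symm
  congr 1
  funext n
  congr 2
  funext i
  rcases i with i | j <;> rfl

end

theorem mem_of_norm {ι : Type} [Fintype ι] {L : ℕ → ℝ} {hL : Tendsto L atTop atTop}
    {x : ℕ → ι → ℂ} (h : ∀ n, ‖x n‖ = 1) (i : ι) : cr (fun n => x n i) ∈ OO L hL :=
  mem_OO_of_bdd (C := 1) fun n => by
    rw [← h n]
    exact norm_le_pi_norm (x n) i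

/-- **the fibres of points near `y'` are near the fibre of `y'`** -/
theorem loj (S : Finset (MvPolynomial (σ ⊕ τ) ℂ))
    (hS : ∀ x y, Gam S x y → ∀ a b : ℝ, 0 < a → 0 < b → Gam S (a • x) (b • y)) :
    ∃ a : ℝ, 0 < a ∧ a ≤ 1 ∧ ∀ x y, Gam S x y → ‖x‖ = 1 → ‖y‖ = 1 → ∀ L : ℝ, 1 / a ≤ L →
      ∃ L₂, a * L ≤ L₂ ∧ L₂ ≤ L ∧ ∃ x' y', Gam S x' y' ∧ ‖x'‖ = 1 ∧ ‖y'‖ = 1 ∧
        ‖y - y'‖ ≤ Real.exp (-(2 * L₂)) ∧ ∀ x'' y'', Gam S x'' y'' → ‖x''‖ = 1 → ‖y''‖ = 1 →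
          ‖y'' - y'‖ ≤ 4 * Real.exp (-L₂) → ∃ z, Gam S z y' ∧ ‖z‖ = 1 ∧
            ‖x'' - z‖ ≤ Real.exp (-(a * L₂)) := by
  by_contra hcon
  have hneg : ∀ n : ℕ, ∃ x y, Gam S x y ∧ ‖x‖ = 1 ∧ ‖y‖ = 1 ∧ ∃ L : ℝ, (n + 1 : ℝ) ≤ L ∧
      ∀ L₂, 1 / (n + 1 : ℝ) * L ≤ L₂ → L₂ ≤ L → ∀ x' y', Gam S x' y' → ‖x'‖ = 1 → ‖y'‖ = 1 →
        ‖y - y'‖ ≤ Real.exp (-(2 * L₂)) → ∃ x'' y'', Gam S x'' y'' ∧ ‖x''‖ = 1 ∧ ‖y''‖ = 1 ∧
          ‖y'' - y'‖ ≤ 4 * Real.exp (-L₂) ∧ ∀ z, Gam S z y' → ‖z‖ = 1 →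
            Real.exp (-(1 / (n + 1 : ℝ) * L₂)) < ‖x'' - z‖ := by
    intro n
    by_contra h
    push Not at h
    have hn : (0 : ℝ) < n + 1 := by positivity
    refine hcon ⟨1 / (n + 1 : ℝ), by positivity, ?_, ?_⟩
    · rw [div_le_one hn]
      have : (0 : ℝ) ≤ n := Nat.cast_nonneg n
      linarith
    · intro x y hxy hx hy L hL
      rw [one_div_one_div] at hL
      obtain ⟨L₂, h1, h2, x', y', h3, h4, h5, h6, h7⟩ := h x y hxy hx hy L hL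
      exact ⟨L₂, h1, h2, x', y', h3, h4, h5, h6, h7⟩
  choose x y hxy hx hy L hLn hmain using hneg
  have hL : Tendsto L atTop atTop := by
    refine tendsto_atTop_mono hLn ?_
    exact tendsto_atTop_add_const_right _ _ tendsto_natCast_atTop_atTop
  obtain ⟨π, hπ1, hπ2, hπ3, -⟩ := exists_retraction L hL
  have hxO : ∀ i, cr (fun n => x n i) ∈ OO L hL := mem_of_norm hx
  have hyO : ∀ j, cr (fun n => y n j) ∈ OO L hL := mem_of_norm hy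
  choose ξ' hξ using fun i => cr_surj (π ⟨_, hxO i⟩)
  choose η' hη using fun j => cr_surj (π ⟨_, hyO j⟩)
  set ξ : ℕ → σ → ℂ := fun n i => ξ' i n with hξdef
  set η : ℕ → τ → ℂ := fun n j => η' j n with hηdef
  have hG := retract π hπ1 hxO hyO hxy (ξ := ξ) (η := η) hξ hη
  obtain ⟨ε₁, hε₁, hs₁⟩ := small_of_val (hL := hL) (F := fun i n => x n i - ξ n i) (fun i => by
    have := hπ2 ⟨_, hxO i⟩
    rw [← hξ i] at this
    exact this)
  obtain ⟨ε₂, hε₂, hs₂⟩ := small_of_val (hL := hL) (F := fun j n => y n j - η n j) (fun j => by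
    have := hπ2 ⟨_, hyO j⟩
    rw [← hη j] at this
    exact this)
  set ε₀ := min 1 (ε₂ / 4) with hε₀
  have hε₀0 : 0 < ε₀ := lt_min one_pos (by positivity)
  have hε₀1 : ε₀ ≤ 1 := min_le_left _ _
  have hε₀2 : ε₀ ≤ ε₂ / 4 := min_le_right _ _
  -- the normalized points
  set x' : ℕ → σ → ℂ := fun n => (‖ξ n‖⁻¹ : ℝ) • ξ n with hx'def
  set y' : ℕ → τ → ℂ := fun n => (‖η n‖⁻¹ : ℝ) • η n with hy'def
  have hgood : ∀ᶠ n : ℕ in (hyperfilter ℕ : Filter ℕ), (1 / (n + 1 : ℝ) ≤ ε₀ ∧ 0 < ‖η n‖ ∧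
      Gam S (x' n) (y' n) ∧ ‖x' n‖ = 1 ∧ ‖y' n‖ = 1 ∧ ‖y n - y' n‖ ≤ Real.exp (-(2 * (ε₀ * L n)))) := by
    have hb1 : ∀ᶠ n : ℕ in (atTop : Filter ℕ), 1 / (n + 1 : ℝ) ≤ ε₀ := by
      have := tendsto_one_div_add_atTop_nhds_zero_nat (𝕜 := ℝ)
      exact (this.eventually (gt_mem_nhds hε₀0)).mono fun n hn => hn.le
    filter_upwards [hG, hs₁, hs₂, eventually_of_atTop (hL.eventually_ge_atTop (1 / ε₁)),
      eventually_of_atTop (hL.eventually_ge_atTop (2 / ε₂)), eventually_of_atTop hb1] with n h1 h2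
        h3 h4 h5 h6
    have a1 : ‖x n - ξ n‖ ≤ Real.exp (-(ε₁ * L n)) := norm_le_of_pi (Real.exp_pos _).le h2
    have a2 : ‖y n - η n‖ ≤ Real.exp (-(ε₂ * L n)) := norm_le_of_pi (Real.exp_pos _).le h3
    have b1 : 1 ≤ ε₁ * L n := by
      calc (1 : ℝ) = ε₁ * (1 / ε₁) := by field_simp
        _ ≤ ε₁ * L n := mul_le_mul_of_nonneg_left h4 hε₁.le
    have b2 : 2 ≤ ε₂ * L n := by
      calc (2 : ℝ) = ε₂ * (2 / ε₂) := by field_simp
        _ ≤ ε₂ * L n := mul_le_mul_of_nonneg_left h5 hε₂.le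
    have c1 : Real.exp (-(ε₁ * L n)) < 1 := exp_lt_one (by linarith)
    have c2 : Real.exp (-(ε₂ * L n)) < 1 := exp_lt_one (by linarith)
    obtain ⟨d1, d2, -⟩ := normalize (hx n) a1 c1
    obtain ⟨d3, d4, d5⟩ := normalize (hy n) a2 c2
    refine ⟨h6, d3, hS _ _ h1 _ _ (inv_pos.2 d1) (inv_pos.2 d3), d2, d4, d5.trans ?_⟩
    have e1 : (2 : ℝ) ≤ Real.exp (ε₂ / 2 * L n) := by
      have := Real.add_one_le_exp (ε₂ / 2 * L n)
      linarith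
    calc 2 * Real.exp (-(ε₂ * L n)) ≤ Real.exp (ε₂ / 2 * L n) * Real.exp (-(ε₂ * L n)) :=
          mul_le_mul_of_nonneg_right e1 (Real.exp_pos _).le
      _ = Real.exp (-(ε₂ / 2 * L n)) := by
          rw [← Real.exp_add]
          congr 1
          ring
      _ ≤ Real.exp (-(2 * (ε₀ * L n))) := by
          apply Real.exp_le_exp.2
          have hL0 : 0 ≤ L n := (by positivity : (0 : ℝ) ≤ n + 1).trans (hLn n)
          have := mul_le_mul_of_nonneg_right hε₀2 hL0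
          linarith
  -- the far points
  have hfar : ∀ n : ℕ, ∃ x'' y'', Gam S x'' y'' ∧ ‖x''‖ = 1 ∧ ‖y''‖ = 1 ∧
      ((1 / (n + 1 : ℝ) ≤ ε₀ ∧ 0 < ‖η n‖ ∧
        Gam S (x' n) (y' n) ∧ ‖x' n‖ = 1 ∧ ‖y' n‖ = 1 ∧
        ‖y n - y' n‖ ≤ Real.exp (-(2 * (ε₀ * L n)))) →
        ‖y'' - y' n‖ ≤ 4 * Real.exp (-(ε₀ * L n)) ∧ ∀ z, Gam S z (y' n) → ‖z‖ = 1 →
          Real.exp (-(1 / (n + 1 : ℝ) * (ε₀ * L n))) < ‖x'' - z‖) := by
    intro n
    by_cases hg : 1 / (n + 1 : ℝ) ≤ ε₀ ∧ 0 < ‖η n‖ ∧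
        Gam S (x' n) (y' n) ∧ ‖x' n‖ = 1 ∧ ‖y' n‖ = 1 ∧
        ‖y n - y' n‖ ≤ Real.exp (-(2 * (ε₀ * L n)))
    · obtain ⟨g1, g0, g2, g3, g4, g5⟩ := hg
      have hL0 : 0 ≤ L n := (by positivity : (0 : ℝ) ≤ n + 1).trans (hLn n)
      obtain ⟨x'', y'', k1, k2, k3, k4, k5⟩ := hmain n (ε₀ * L n)
        (mul_le_mul_of_nonneg_right g1 hL0) (by nlinarith) (x' n) (y' n) g2 g3 g4 g5
      exact ⟨x'', y'', k1, k2, k3, fun _ => ⟨k4, k5⟩⟩
    · exact ⟨x n, y n, hxy n, hx n, hy n, fun h => absurd h hg⟩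
  choose x'' y'' hxy'' hx'' hy'' hfar using hfar
  have hx''O : ∀ i, cr (fun n => x'' n i) ∈ OO L hL := mem_of_norm hx''
  have hy''O : ∀ j, cr (fun n => y'' n j) ∈ OO L hL := mem_of_norm hy''
  have hyy : ∀ j, π ⟨_, hy''O j⟩ = π ⟨_, hyO j⟩ := by
    intro j
    have h1 : (OO L hL).valuation (cr (fun n => y'' n j - y n j)) < 1 := by
      rw [val_lt_iff]
      refine ⟨ε₀ / 2, by positivity, ?_⟩
      filter_upwards [hgood, eventually_of_atTop (hL.eventually_ge_atTop (8 / ε₀))] with n h1 h2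
      obtain ⟨-, -, -, -, -, h3⟩ := id h1
      obtain ⟨h4, -⟩ := hfar n h1
      have hL0 : 0 ≤ L n := (by positivity : (0 : ℝ) ≤ n + 1).trans (hLn n)
      have h3' : ‖y n - y' n‖ ≤ Real.exp (-(ε₀ * L n)) := h3.trans (Real.exp_le_exp.2 (by
        have : 0 ≤ ε₀ * L n := by positivity
        linarith))
      have h5 : ‖y'' n j - y n j‖ ≤ 5 * Real.exp (-(ε₀ * L n)) := by
        have e1 : ‖y'' n - y n‖ ≤ 5 * Real.exp (-(ε₀ * L n)) := by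
          calc ‖y'' n - y n‖ = ‖(y'' n - y' n) - (y n - y' n)‖ := by congr 1; abel
            _ ≤ ‖y'' n - y' n‖ + ‖y n - y' n‖ := norm_sub_le _ _
            _ ≤ _ := by linarith
        exact (norm_le_pi_norm (y'' n - y n) j).trans e1
      have h6 : 8 ≤ ε₀ * L n := by
        calc (8 : ℝ) = ε₀ * (8 / ε₀) := by field_simp
          _ ≤ ε₀ * L n := mul_le_mul_of_nonneg_left h2 hε₀0.le
      have h7 : (5 : ℝ) ≤ Real.exp (ε₀ / 2 * L n) := by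
        have := Real.add_one_le_exp (ε₀ / 2 * L n)
        linarith
      calc ‖y'' n j - y n j‖ ≤ 5 * Real.exp (-(ε₀ * L n)) := h5
        _ ≤ Real.exp (ε₀ / 2 * L n) * Real.exp (-(ε₀ * L n)) :=
            mul_le_mul_of_nonneg_right h7 (Real.exp_pos _).le
        _ = Real.exp (-(ε₀ / 2 * L n)) := by
            rw [← Real.exp_add]
            congr 1
            ring
    have h2 : π (⟨_, hy''O j⟩ - ⟨_, hyO j⟩) = 0 := hπ3 _ h1
    rw [map_sub] at h2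
    exact sub_eq_zero.1 h2
  choose ζ' hζ using fun i => cr_surj (π ⟨_, hx''O i⟩)
  set ζ : ℕ → σ → ℂ := fun n i => ζ' i n with hζdef
  have hG2 := retract π hπ1 hx''O hy''O hxy'' (ξ := ζ) (η := η) hζ
    (fun j => (hη j).trans (hyy j).symm)
  obtain ⟨ε₃, hε₃, hs₃⟩ := small_of_val (hL := hL) (F := fun i n => x'' n i - ζ n i) (fun i => by
    have := hπ2 ⟨_, hx''O i⟩
    rw [← hζ i] at this
    exact this)
  have hb2 : ∀ᶠ n : ℕ in (atTop : Filter ℕ), 1 / (n + 1 : ℝ) ≤ ε₃ / 2 := by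
    have := tendsto_one_div_add_atTop_nhds_zero_nat (𝕜 := ℝ)
    exact (this.eventually (gt_mem_nhds (by positivity : 0 < ε₃ / 2))).mono fun n hn => hn.le
  obtain ⟨n, g1, g2, g3, g4, g5⟩ := exists_of_eventually (hgood.and (hG2.and (hs₃.and
    ((eventually_of_atTop (hL.eventually_ge_atTop (2 / ε₃))).and (eventually_of_atTop hb2)))))
  have hL0 : 0 ≤ L n := (by positivity : (0 : ℝ) ≤ n + 1).trans (hLn n)
  have a1 : ‖x'' n - ζ n‖ ≤ Real.exp (-(ε₃ * L n)) := norm_le_of_pi (Real.exp_pos _).le g3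
  have b1 : 2 ≤ ε₃ * L n := by
    calc (2 : ℝ) = ε₃ * (2 / ε₃) := by field_simp
      _ ≤ ε₃ * L n := mul_le_mul_of_nonneg_left g4 hε₃.le
  obtain ⟨d1, d2, d3⟩ := normalize (hx'' n) a1 (exp_lt_one (by linarith))
  obtain ⟨-, k2⟩ := hfar n g1
  have k3 := k2 ((‖ζ n‖⁻¹ : ℝ) • ζ n) (hS _ _ g2 _ _ (inv_pos.2 d1) (inv_pos.2 g1.2.1)) d2
  have e1 : (2 : ℝ) ≤ Real.exp (ε₃ / 2 * L n) := by
    have := Real.add_one_le_exp (ε₃ / 2 * L n)
    linarith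
  have e2 : 2 * Real.exp (-(ε₃ * L n)) ≤ Real.exp (-(ε₃ / 2 * L n)) := by
    calc 2 * Real.exp (-(ε₃ * L n)) ≤ Real.exp (ε₃ / 2 * L n) * Real.exp (-(ε₃ * L n)) :=
          mul_le_mul_of_nonneg_right e1 (Real.exp_pos _).le
      _ = Real.exp (-(ε₃ / 2 * L n)) := by
          rw [← Real.exp_add]
          congr 1
          ring
  have e3 : Real.exp (-(ε₃ / 2 * L n)) ≤ Real.exp (-(1 / (n + 1 : ℝ) * (ε₀ * L n))) := by
    apply Real.exp_le_exp.2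
    have f1 : 1 / (n + 1 : ℝ) * (ε₀ * L n) ≤ ε₃ / 2 * (1 * L n) :=
      mul_le_mul g5 (mul_le_mul_of_nonneg_right hε₀1 hL0) (by positivity) (by positivity)
    linarith
  exact absurd (k3.trans_le (d3.trans (e2.trans e3))) (lt_irrefl _)

/-- **Lojasiewicz inequality for the fibre product of an algebraic correspondence with itself** -/
theorem loj_pair (S : Finset (MvPolynomial (σ ⊕ τ) ℂ))
    (hS : ∀ x y, Gam S x y → ∀ a b : ℝ, 0 < a → 0 < b → Gam S (a • x) (b • y)) :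
    ∃ Λ : ℝ, 1 ≤ Λ ∧ ∀ l : ℝ, 1 ≤ l → ∀ x y x' y', Gam S x y → Gam S x' y' → ‖x‖ = 1 →
      ‖y‖ = 1 → ‖x'‖ = 1 → ‖y'‖ = 1 → ‖y - y'‖ ≤ Real.exp (-(Λ * l)) →
      ∃ z z' w, Gam S z w ∧ Gam S z' w ∧ ‖z‖ = 1 ∧ ‖z'‖ = 1 ∧ ‖w‖ = 1 ∧
        ‖x - z‖ ≤ Real.exp (-l) ∧ ‖x' - z'‖ ≤ Real.exp (-l) := by
  by_contra hcon
  have hneg : ∀ n : ℕ, ∃ l : ℝ, 1 ≤ l ∧ ∃ x y x' y', Gam S x y ∧ Gam S x' y' ∧ ‖x‖ = 1 ∧
      ‖y‖ = 1 ∧ ‖x'‖ = 1 ∧ ‖y'‖ = 1 ∧ ‖y - y'‖ ≤ Real.exp (-((n + 1 : ℝ) * l)) ∧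
      ∀ z z' w, Gam S z w → Gam S z' w → ‖z‖ = 1 → ‖z'‖ = 1 → ‖w‖ = 1 →
        ‖x - z‖ ≤ Real.exp (-l) → Real.exp (-l) < ‖x' - z'‖ := by
    intro n
    by_contra h
    push Not at h
    refine hcon ⟨(n + 1 : ℝ), ?_, ?_⟩
    · have : (0 : ℝ) ≤ n := Nat.cast_nonneg n
      linarith
    · intro l hl x y x' y' h1 h2 h3 h4 h5 h6 h7
      exact h l hl x y x' y' h1 h2 h3 h4 h5 h6 h7
  choose l hl x y x' y' hxy hxy' hx hy hx' hy' hyy hmain using hneg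
  set L : ℕ → ℝ := fun n => (n + 1 : ℝ) * l n with hLdef
  have hL : Tendsto L atTop atTop := by
    refine tendsto_atTop_mono (f := fun n : ℕ => (n : ℝ)) ?_ tendsto_natCast_atTop_atTop
    intro n
    have h1 := hl n
    have h2 : (0 : ℝ) ≤ n := Nat.cast_nonneg n
    rw [hLdef]
    nlinarith
  obtain ⟨π, hπ1, hπ2, hπ3, -⟩ := exists_retraction L hL
  have hxO : ∀ i, cr (fun n => x n i) ∈ OO L hL := mem_of_norm hx
  have hyO : ∀ j, cr (fun n => y n j) ∈ OO L hL := mem_of_norm hy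
  have hxO' : ∀ i, cr (fun n => x' n i) ∈ OO L hL := mem_of_norm hx'
  have hyO' : ∀ j, cr (fun n => y' n j) ∈ OO L hL := mem_of_norm hy'
  have hyeq : ∀ j, π ⟨_, hyO' j⟩ = π ⟨_, hyO j⟩ := by
    intro j
    have h1 : (OO L hL).valuation (cr (fun n => y' n j - y n j)) < 1 := by
      rw [val_lt_iff]
      refine ⟨1, one_pos, Eventually.of_forall fun n => ?_⟩
      rw [one_mul]
      have h2 := norm_le_pi_norm (y' n - y n) j
      rw [norm_sub_rev] at h2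
      exact h2.trans (hyy n)
    have h2 : π (⟨_, hyO' j⟩ - ⟨_, hyO j⟩) = 0 := hπ3 _ h1
    rw [map_sub] at h2
    exact sub_eq_zero.1 h2
  choose ξ₁ hξ using fun i => cr_surj (π ⟨_, hxO i⟩)
  choose ξ₂ hξ' using fun i => cr_surj (π ⟨_, hxO' i⟩)
  choose η₁ hη using fun j => cr_surj (π ⟨_, hyO j⟩)
  set ξ : ℕ → σ → ℂ := fun n i => ξ₁ i n with hξdef
  set ξ' : ℕ → σ → ℂ := fun n i => ξ₂ i n with hξdef'
  set η : ℕ → τ → ℂ := fun n j => η₁ j n with hηdef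
  have hG := retract π hπ1 hxO hyO hxy (ξ := ξ) (η := η) hξ hη
  have hG' := retract π hπ1 hxO' hyO' hxy' (ξ := ξ') (η := η) hξ'
    (fun j => (hη j).trans (hyeq j).symm)
  obtain ⟨ε₁, hε₁, hs₁⟩ := small_of_val (hL := hL) (F := fun i n => x n i - ξ n i) (fun i => by
    have := hπ2 ⟨_, hxO i⟩
    rw [← hξ i] at this
    exact this)
  obtain ⟨ε₂, hε₂, hs₂⟩ := small_of_val (hL := hL) (F := fun i n => x' n i - ξ' n i) (fun i => by
    have := hπ2 ⟨_, hxO' i⟩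
    rw [← hξ' i] at this
    exact this)
  obtain ⟨ε₃, hε₃, hs₃⟩ := small_of_val (hL := hL) (F := fun j n => y n j - η n j) (fun j => by
    have := hπ2 ⟨_, hyO j⟩
    rw [← hη j] at this
    exact this)
  have hbig : ∀ e : ℝ, 0 < e → ∀ᶠ n : ℕ in (hyperfilter ℕ : Filter ℕ),
      2 * Real.exp (-(e * L n)) ≤ Real.exp (-l n) ∧ Real.exp (-(e * L n)) < 1 := by
    intro e he
    have h1 : ∀ᶠ n : ℕ in (atTop : Filter ℕ), 2 / e ≤ (n : ℝ) :=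
      tendsto_natCast_atTop_atTop.eventually_ge_atTop _
    filter_upwards [eventually_of_atTop h1] with n hn
    have h2 : 2 ≤ e * n := by
      calc (2 : ℝ) = e * (2 / e) := by field_simp
        _ ≤ e * n := mul_le_mul_of_nonneg_left hn he.le
    have h3 := hl n
    have h4 : l n + 1 ≤ e * L n := by
      rw [hLdef]
      have : e * ((n + 1 : ℝ) * l n) = e * n * l n + e * l n := by ring
      simp only [this]
      nlinarith
    have h5 : (2 : ℝ) ≤ Real.exp 1 := by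
      have := Real.add_one_le_exp (1 : ℝ)
      linarith
    constructor
    · calc 2 * Real.exp (-(e * L n)) ≤ Real.exp 1 * Real.exp (-(e * L n)) :=
            mul_le_mul_of_nonneg_right h5 (Real.exp_pos _).le
        _ = Real.exp (1 + -(e * L n)) := (Real.exp_add _ _).symm
        _ ≤ Real.exp (-l n) := Real.exp_le_exp.2 (by linarith)
    · exact exp_lt_one (by linarith)
  obtain ⟨n, g1, g2, g3, g4, g5, g6, g7, g8⟩ := exists_of_eventually (hG.and (hG'.and (hs₁.and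
    (hs₂.and (hs₃.and ((hbig ε₁ hε₁).and ((hbig ε₂ hε₂).and (hbig ε₃ hε₃))))))))
  have a1 : ‖x n - ξ n‖ ≤ Real.exp (-(ε₁ * L n)) := norm_le_of_pi (Real.exp_pos _).le g3
  have a2 : ‖x' n - ξ' n‖ ≤ Real.exp (-(ε₂ * L n)) := norm_le_of_pi (Real.exp_pos _).le g4
  have a3 : ‖y n - η n‖ ≤ Real.exp (-(ε₃ * L n)) := norm_le_of_pi (Real.exp_pos _).le g5
  obtain ⟨b1, b2, b3⟩ := normalize (hx n) a1 g6.2
  obtain ⟨c1, c2, c3⟩ := normalize (hx' n) a2 g7.2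
  obtain ⟨d1, d2, d3⟩ := normalize (hy n) a3 g8.2
  have := hmain n ((‖ξ n‖⁻¹ : ℝ) • ξ n) ((‖ξ' n‖⁻¹ : ℝ) • ξ' n) ((‖η n‖⁻¹ : ℝ) • η n)
    (hS _ _ g1 _ _ (inv_pos.2 b1) (inv_pos.2 d1)) (hS _ _ g2 _ _ (inv_pos.2 c1) (inv_pos.2 d1))
    b2 c2 d2 (b3.trans g6.1)
  exact absurd (this.trans_le (c3.trans g7.1)) (lt_irrefl _)

end Loj

end Pool.Agent.KRFN
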