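import Pool.Agent.Work.MP_a2bf38_gt.N.Coef

/-!
# The ultrapower of `ℂ` at a logarithmic scale (helper2)
-/

open Polynomial Filter Topology

namespace Pool.Agent.KRFN

namespace Ultra

/-- the ultrapower of `ℂ` -/
abbrev KK : Type := Germ (hyperfilter ℕ : Filter ℕ) ℂ

noncomputable abbrev cr : (ℕ → ℂ) →+* KK := Germ.coeRingHom (hyperfilter ℕ : Filter ℕ)

theorem cr_surj (a : KK) : ∃ f : ℕ → ℂ, cr f = a :=
  Quotient.inductionOn' a fun f => ⟨f, rfl⟩

theorem cr_eq {f g : ℕ → ℂ} : cr f = cr g ↔ ∀ᶠ j in (hyperfilter ℕ : Filter ℕ), f j = g j :=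
  Germ.coe_eq

theorem cr_eq_zero {f : ℕ → ℂ} : cr f = 0 ↔ ∀ᶠ j in (hyperfilter ℕ : Filter ℕ), f j = 0 := by
  rw [← map_zero cr, cr_eq]
  rfl

theorem eventually_of_atTop {p : ℕ → Prop} (h : ∀ᶠ j in (atTop : Filter ℕ), p j) :
    ∀ᶠ j in (hyperfilter ℕ : Filter ℕ), p j := by
  rw [← Nat.cofinite_eq_atTop] at h
  exact hyperfilter_le_cofinite h

theorem not_eventually {p : ℕ → Prop} (h : ¬∀ᶠ j in (hyperfilter ℕ : Filter ℕ), p j) :
    ∀ᶠ j in (hyperfilter ℕ : Filter ℕ), ¬p j :=
  Ultrafilter.eventually_not.2 h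

theorem exists_of_eventually {p : ℕ → Prop} (h : ∀ᶠ j in (hyperfilter ℕ : Filter ℕ), p j) :
    ∃ j, p j :=
  h.exists

instance : IsAlgClosed KK := by
  refine IsAlgClosed.of_exists_root _ fun p hp hirr => ?_
  have hn : 0 < p.natDegree := hirr.natDegree_pos
  choose c hc using fun i => cr_surj (p.coeff i)
  set n := p.natDegree with hndef
  have h1 : ∀ j : ℕ, ∃ r : ℂ, ∑ i ∈ Finset.range n, c i j * r ^ i + r ^ n = 0 := by
    intro j
    set q : ℂ[X] := ∑ i ∈ Finset.range n, C (c i j) * X ^ i with hq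
    have hqd : q.degree < n := by
      refine (degree_sum_le _ _).trans_lt ?_
      rw [Finset.sup_lt_iff (by exact_mod_cast WithBot.bot_lt_coe n)]
      intro i hi
      exact (degree_C_mul_X_pow_le i _).trans_lt (by exact_mod_cast Finset.mem_range.1 hi)
    have hd : (X ^ n + q : ℂ[X]).degree = n := by
      rw [degree_add_eq_left_of_degree_lt (by rwa [degree_X_pow]), degree_X_pow]
    obtain ⟨r, hr⟩ := IsAlgClosed.exists_root (X ^ n + q : ℂ[X]) (by
      rw [hd]
      exact_mod_cast hn.ne')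
    refine ⟨r, ?_⟩
    have hr' : (X ^ n + q : ℂ[X]).eval r = 0 := hr
    rw [eval_add, eval_pow, eval_X, hq, eval_finsetSum] at hr'
    rw [add_comm, ← hr']
    congr 1
    refine Finset.sum_congr rfl fun i _ => ?_
    rw [eval_mul, eval_C, eval_pow, eval_X]
  choose r hr using h1
  refine ⟨cr r, ?_⟩
  rw [eval_eq_sum_range, Finset.sum_range_succ, ← hndef]
  have h2 : p.coeff n = 1 := hp
  rw [h2, one_mul]
  have h3 : ∑ i ∈ Finset.range n, p.coeff i * cr r ^ i + cr r ^ n =
      cr (fun j => ∑ i ∈ Finset.range n, c i j * r j ^ i + r j ^ n) := by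
    have h4 : (fun j => ∑ i ∈ Finset.range n, c i j * r j ^ i + r j ^ n) =
        ∑ i ∈ Finset.range n, c i * r ^ i + r ^ n := by
      funext j
      simp [Finset.sum_apply]
    rw [h4, map_add, map_sum, map_pow]
    congr 1
    refine Finset.sum_congr rfl fun i _ => ?_
    rw [map_mul, map_pow, hc i]
  rw [h3, cr_eq_zero]
  exact Eventually.of_forall hr

/-- the valuation ring of the elements which are at most `exp (ε L)` for all `ε > 0` -/
noncomputable def OO (L : ℕ → ℝ) (hL : Tendsto L atTop atTop) : ValuationSubring KK where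
  carrier := {a | ∃ f : ℕ → ℂ, cr f = a ∧ ∀ ε > 0, ∀ᶠ j in (hyperfilter ℕ : Filter ℕ),
    ‖f j‖ ≤ Real.exp (ε * L j)}
  mul_mem' := by
    rintro _ _ ⟨f, rfl, hf⟩ ⟨g, rfl, hg⟩
    refine ⟨f * g, map_mul _ _ _, fun ε hε => ?_⟩
    filter_upwards [hf (ε / 2) (by positivity), hg (ε / 2) (by positivity)] with j h1 h2
    rw [Pi.mul_apply, norm_mul]
    calc ‖f j‖ * ‖g j‖ ≤ Real.exp (ε / 2 * L j) * Real.exp (ε / 2 * L j) :=
          mul_le_mul h1 h2 (norm_nonneg _) (Real.exp_pos _).le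
      _ = Real.exp (ε * L j) := by
          rw [← Real.exp_add]
          congr 1
          ring
  one_mem' := by
    refine ⟨1, map_one _, fun ε hε => ?_⟩
    filter_upwards [eventually_of_atTop (hL.eventually_ge_atTop 0)] with j hj
    rw [Pi.one_apply, norm_one]
    exact Real.one_le_exp (by positivity)
  add_mem' := by
    rintro _ _ ⟨f, rfl, hf⟩ ⟨g, rfl, hg⟩
    refine ⟨f + g, map_add _ _ _, fun ε hε => ?_⟩
    filter_upwards [hf (ε / 2) (by positivity), hg (ε / 2) (by positivity),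
      eventually_of_atTop (hL.eventually_ge_atTop (2 / ε))] with j h1 h2 h3
    rw [Pi.add_apply]
    have h4 : 1 ≤ ε / 2 * L j := by
      calc (1 : ℝ) = ε / 2 * (2 / ε) := by field_simp
        _ ≤ ε / 2 * L j := mul_le_mul_of_nonneg_left h3 (by positivity)
    have h5 : (2 : ℝ) ≤ Real.exp (ε / 2 * L j) := by
      have := Real.add_one_le_exp (ε / 2 * L j)
      linarith
    calc ‖f j + g j‖ ≤ Real.exp (ε / 2 * L j) + Real.exp (ε / 2 * L j) :=
          (norm_add_le _ _).trans (add_le_add h1 h2)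
      _ = 2 * Real.exp (ε / 2 * L j) := by ring
      _ ≤ Real.exp (ε / 2 * L j) * Real.exp (ε / 2 * L j) :=
          mul_le_mul_of_nonneg_right h5 (Real.exp_pos _).le
      _ = Real.exp (ε * L j) := by
          rw [← Real.exp_add]
          congr 1
          ring
  zero_mem' := by
    refine ⟨0, map_zero _, fun ε hε => Eventually.of_forall fun j => ?_⟩
    rw [Pi.zero_apply, norm_zero]
    exact (Real.exp_pos _).le
  neg_mem' := by
    rintro _ ⟨f, rfl, hf⟩
    refine ⟨-f, map_neg _ _, fun ε hε => ?_⟩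
    filter_upwards [hf ε hε] with j h1
    rwa [Pi.neg_apply, norm_neg]
  mem_or_inv_mem' := by
    intro a
    obtain ⟨f, rfl⟩ := cr_surj a
    by_cases h : ∀ ε > 0, ∀ᶠ j in (hyperfilter ℕ : Filter ℕ), ‖f j‖ ≤ Real.exp (ε * L j)
    · exact Or.inl ⟨f, rfl, h⟩
    · right
      push Not at h
      obtain ⟨ε, hε, h⟩ := h
      refine ⟨fun j => (f j)⁻¹, rfl, fun ε' hε' => ?_⟩
      filter_upwards [h, eventually_of_atTop (hL.eventually_ge_atTop 0)] with j h1 h2
      rw [norm_inv]
      have h3 : Real.exp (ε * L j) < ‖f j‖ := h1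
      have h4 : 1 ≤ ‖f j‖ := (Real.one_le_exp (by positivity)).trans h3.le
      exact (inv_le_one_of_one_le₀ h4).trans (Real.one_le_exp (by positivity))

variable {L : ℕ → ℝ} {hL : Tendsto L atTop atTop}

theorem mem_OO {f : ℕ → ℂ} : cr f ∈ OO L hL ↔
    ∀ ε > 0, ∀ᶠ j in (hyperfilter ℕ : Filter ℕ), ‖f j‖ ≤ Real.exp (ε * L j) := by
  constructor
  · rintro ⟨g, hg, h⟩ ε hε
    filter_upwards [cr_eq.1 hg, h ε hε] with j h1 h2
    rwa [← h1]
  · intro h
    exact ⟨f, rfl, h⟩

theorem mem_OO_of_bdd {f : ℕ → ℂ} {C : ℝ} (h : ∀ j, ‖f j‖ ≤ C) : cr f ∈ OO L hL := by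
  rw [mem_OO]
  intro ε hε
  filter_upwards [eventually_of_atTop (hL.eventually_ge_atTop (C / ε))] with j hj
  have h1 : C ≤ ε * L j := by
    calc C = ε * (C / ε) := by field_simp
      _ ≤ ε * L j := mul_le_mul_of_nonneg_left hj hε.le
  have := Real.add_one_le_exp (ε * L j)
  linarith [h j]

theorem cr_inv (f : ℕ → ℂ) : (cr f)⁻¹ = cr (fun j => (f j)⁻¹) := rfl

theorem val_lt_iff {f : ℕ → ℂ} : (OO L hL).valuation (cr f) < 1 ↔
    ∃ ε > 0, ∀ᶠ j in (hyperfilter ℕ : Filter ℕ), ‖f j‖ ≤ Real.exp (-(ε * L j)) := by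
  by_cases h0 : cr f = 0
  · rw [h0, map_zero]
    refine ⟨fun _ => ⟨1, one_pos, ?_⟩, fun _ => zero_lt_one⟩
    filter_upwards [cr_eq_zero.1 h0] with j hj
    rw [hj, norm_zero]
    exact (Real.exp_pos _).le
  have h1 : (OO L hL).valuation (cr f) < 1 ↔ (cr f)⁻¹ ∉ OO L hL := by
    have h2 : (OO L hL).valuation (cr f) ≠ 0 := (Valuation.ne_zero_iff _).2 h0
    rw [← (OO L hL).valuation_le_one_iff, map_inv₀, not_le,
      one_lt_inv₀ (zero_lt_iff.2 h2)]
  have hne : ∀ᶠ j in (hyperfilter ℕ : Filter ℕ), f j ≠ 0 := by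
    apply not_eventually
    intro h
    exact h0 (cr_eq_zero.2 h)
  rw [h1, cr_inv, mem_OO]
  constructor
  · intro h
    push Not at h
    obtain ⟨ε, hε, h⟩ := h
    refine ⟨ε, hε, ?_⟩
    filter_upwards [h, hne] with j hj hj0
    rw [norm_inv] at hj
    rw [Real.exp_neg]
    exact (le_inv_comm₀ (norm_pos_iff.2 hj0) (Real.exp_pos _)).2 hj.le
  · rintro ⟨ε, hε, h⟩ hcon
    obtain ⟨j, hj1, hj2, hj3, hj0⟩ := exists_of_eventually (h.and ((hcon (ε / 2) (by
      positivity)).and ((eventually_of_atTop (hL.eventually_ge_atTop 1)).and hne)))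
    rw [norm_inv] at hj2
    have h2 : Real.exp (ε * L j) ≤ ‖f j‖⁻¹ := by
      rw [Real.exp_neg] at hj1
      exact (le_inv_comm₀ (Real.exp_pos _) (norm_pos_iff.2 hj0)).2 hj1
    have h3 := Real.exp_le_exp.1 (h2.trans hj2)
    nlinarith

/-- **retractions**: a ring homomorphism from the valuation ring to `K`, the identity on `ℂ`, which
moves elements by small ones -/
theorem exists_retraction (L : ℕ → ℝ) (hL : Tendsto L atTop atTop) :
    ∃ π : OO L hL →+* KK, (∀ c : ℂ, ∀ h : cr (fun _ => c) ∈ OO L hL,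
      π ⟨cr (fun _ => c), h⟩ = cr (fun _ => c)) ∧
      (∀ a : OO L hL, (OO L hL).valuation ((a : KK) - π a) < 1) ∧
      (∀ a : OO L hL, (OO L hL).valuation (a : KK) < 1 → π a = 0) ∧
      ∀ a : OO L hL, π a ∈ OO L hL := by
  set A := OO L hL with hA
  set cc : ℂ →+* KK := cr.comp (Pi.constRingHom ℕ ℂ) with hcc
  obtain ⟨k₀, hk₀, hkA, hsurj⟩ := Coef.exists_coefficient_field A cc.fieldRange (by
    rintro _ ⟨c, rfl⟩
    exact mem_OO_of_bdd (C := ‖c‖) fun j => le_rfl)
  have huniq : ∀ b ∈ k₀, A.valuation b < 1 → b = 0 := by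
    intro b hb h
    by_contra hb0
    have h1 := (A.valuation_le_one_iff b⁻¹).2 (hkA _ (k₀.inv_mem hb))
    rw [map_inv₀] at h1
    have h2 : A.valuation b ≠ 0 := (Valuation.ne_zero_iff _).2 hb0
    exact absurd h (not_lt.2 ((inv_le_one₀ (zero_lt_iff.2 h2)).1 h1))
  choose ρ hρ1 hρ2 using fun a : A => hsurj a a.2
  have heq : ∀ (a : A) (b : KK), b ∈ k₀ → A.valuation ((a : KK) - b) < 1 → ρ a = b := by
    intro a b hb h
    have h1 : A.valuation (ρ a - b) < 1 := by
      have : ρ a - b = ((a : KK) - b) - ((a : KK) - ρ a) := by ring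
      rw [this]
      exact (A.valuation.map_sub _ _).trans_lt (max_lt h (hρ2 a))
    exact sub_eq_zero.1 (huniq _ (k₀.sub_mem (hρ1 a) hb) h1)
  refine ⟨{ toFun := ρ
            map_one' := heq 1 1 k₀.one_mem (by
              change A.valuation ((1 : KK) - 1) < 1
              rw [sub_self, map_zero]
              exact zero_lt_one)
            map_zero' := heq 0 0 k₀.zero_mem (by
              change A.valuation ((0 : KK) - 0) < 1
              rw [sub_self, map_zero]
              exact zero_lt_one)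
            map_add' := fun a b => heq (a + b) (ρ a + ρ b) (k₀.add_mem (hρ1 a) (hρ1 b)) (by
              have : ((a + b : A) : KK) - (ρ a + ρ b) = ((a : KK) - ρ a) + ((b : KK) - ρ b) := by
                push_cast
                ring
              rw [this]
              exact (A.valuation.map_add _ _).trans_lt (max_lt (hρ2 a) (hρ2 b)))
            map_mul' := fun a b => heq (a * b) (ρ a * ρ b) (k₀.mul_mem (hρ1 a) (hρ1 b)) (by
              have : ((a * b : A) : KK) - (ρ a * ρ b) =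
                  (a : KK) * ((b : KK) - ρ b) + ρ b * ((a : KK) - ρ a) := by
                push_cast
                ring
              rw [this]
              refine (A.valuation.map_add _ _).trans_lt (max_lt ?_ ?_)
              · rw [map_mul]
                exact mul_lt_one_of_nonneg_of_lt_one_right (A.valuation_le_one a) zero_le
                  (hρ2 b)
              · rw [map_mul]
                exact mul_lt_one_of_nonneg_of_lt_one_right
                  ((A.valuation_le_one_iff _).2 (hkA _ (hρ1 b))) zero_le (hρ2 a)) }, ?_, ?_, ?_,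
    ?_⟩
  · intro c h
    refine heq ⟨cr (fun _ => c), h⟩ (cr fun _ => c) (hk₀ ⟨c, rfl⟩) ?_
    rw [sub_self, map_zero]
    exact zero_lt_one
  · exact hρ2
  · intro a ha
    exact heq a 0 k₀.zero_mem (by rwa [sub_zero])
  · intro a
    exact hkA _ (hρ1 a)

end Ultra

end Pool.Agent.KRFN
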